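import Mathlib

set_option autoImplicit false

open Filter Topology

namespace Pool.Agent.TH723.Ind

/-- The number of vertex sets `S` of `G` whose induced subgraph is isomorphic to `H`. -/
noncomputable def cnt {V W : Type} (H : SimpleGraph V) (G : SimpleGraph W) : ℕ :=
  Nat.card {S : Finset W // Nonempty (H ≃g G.induce (S : Set W))}

/-- `i_H(n)`: the maximum of `cnt H G` over all graphs `G` on `n` vertices. -/
noncomputable def iMax {V : Type} (H : SimpleGraph V) (n : ℕ) : ℕ :=
  ⨆ G : SimpleGraph (Fin n), cnt H G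

theorem copy_iff {V W : Type} (H : SimpleGraph V) (G : SimpleGraph W) (S : Set W) :
    Nonempty (H ≃g G.induce S) ↔ ∃ φ : H ↪g G, Set.range φ = S := by
  constructor
  · rintro ⟨e⟩
    refine ⟨(SimpleGraph.Embedding.induce S).comp e.toEmbedding, ?_⟩
    ext w
    constructor
    · rintro ⟨v, rfl⟩
      exact (e v).2
    · intro hw
      refine ⟨e.symm ⟨w, hw⟩, ?_⟩
      show ((e (e.symm ⟨w, hw⟩) : S) : W) = w
      simp
  · rintro ⟨φ, rfl⟩
    refine ⟨⟨Equiv.ofInjective φ φ.injective, ?_⟩⟩
    intro a b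
    show G.Adj (φ a) (φ b) ↔ H.Adj a b
    exact φ.map_adj_iff

theorem cnt_mono {V W W' : Type} [Finite W'] (H : SimpleGraph V) {G : SimpleGraph W}
    {G' : SimpleGraph W'} (e : G ↪g G') : cnt H G ≤ cnt H G' := by
  classical
  unfold cnt
  refine Nat.card_le_card_of_injective
    (fun S => ⟨S.1.map e.toEmbedding, ?_⟩) ?_
  · obtain ⟨φ, hφ⟩ := (copy_iff H G _).1 S.2
    refine (copy_iff H G' _).2 ⟨e.comp φ, ?_⟩
    rw [Finset.coe_map, ← hφ]
    ext w
    simp
  · intro S T h
    have h1 : S.1.map e.toEmbedding = T.1.map e.toEmbedding := congrArg Subtype.val h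
    exact Subtype.ext (Finset.map_injective _ h1)

theorem bdd {V : Type} (H : SimpleGraph V) (n : ℕ) :
    BddAbove (Set.range fun G : SimpleGraph (Fin n) => cnt H G) :=
  (Set.finite_range _).bddAbove

theorem cnt_le_iMax {V W : Type} [Fintype W] (H : SimpleGraph V) (G : SimpleGraph W) (n : ℕ)
    (hn : Fintype.card W ≤ n) : cnt H G ≤ iMax H n := by
  obtain ⟨e⟩ : Nonempty (W ↪ Fin n) := by
    rw [Function.Embedding.nonempty_iff_card_le, Fintype.card_fin]
    exact hn
  exact (cnt_mono H (SimpleGraph.Embedding.map e G)).trans (le_ciSup (bdd H n) (G.map e))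

/-- the blow-up of `F` with `t` vertices in every class -/
def blow {W : Type} (F : SimpleGraph W) (t : ℕ) : SimpleGraph (W × Fin t) := F.comap Prod.fst

theorem blow_cnt {V W : Type} [Fintype V] [Fintype W] (H : SimpleGraph V) (F : SimpleGraph W)
    (t : ℕ) : cnt H F * t ^ Fintype.card V ≤ cnt H (blow F t) := by
  classical
  have h1 : t ^ Fintype.card V = Nat.card (V → Fin t) := by simp
  rw [h1]
  unfold cnt
  rw [← Nat.card_prod]
  have hφ : ∀ S : {S : Finset W // Nonempty (H ≃g F.induce (S : Set W))},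
      ∃ φ : H ↪g F, Set.range φ = (S.1 : Set W) := fun S => (copy_iff H F _).1 S.2
  choose φ hφ using hφ
  have key : ∀ (S : {S : Finset W // Nonempty (H ≃g F.induce (S : Set W))}) (f : V → Fin t),
      Nonempty (H ≃g (blow F t).induce
        ((Finset.univ.image fun v => (φ S v, f v) : Finset (W × Fin t)) : Set (W × Fin t))) := by
    intro S f
    refine (copy_iff H _ _).2 ⟨⟨⟨fun v => (φ S v, f v), ?_⟩, ?_⟩, ?_⟩
    · intro a b hab
      exact (φ S).injective (Prod.ext_iff.1 hab).1
    · intro a b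
      show F.Adj (φ S a) (φ S b) ↔ H.Adj a b
      exact (φ S).map_adj_iff
    · ext w
      simp only [Finset.coe_image, Finset.coe_univ, Set.image_univ]
      exact Iff.rfl
  refine Nat.card_le_card_of_injective (fun p => ⟨_, key p.1 p.2⟩) ?_
  rintro ⟨S, f⟩ ⟨T, g⟩ h
  have h1 : (Finset.univ.image fun v => (φ S v, f v)) = Finset.univ.image fun v => (φ T v, g v) :=
    congrArg Subtype.val h
  have hST : S = T := by
    apply Subtype.ext
    apply Finset.coe_injective
    rw [← hφ S, ← hφ T]
    have h2 := congrArg (fun X : Finset (W × Fin t) => Prod.fst '' (X : Set (W × Fin t))) h1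
    simpa [Set.range_comp, Finset.coe_image, ← Set.range_comp, Function.comp_def] using h2
  subst hST
  have hfg : f = g := by
    funext v
    have h3 : (φ S v, f v) ∈ Finset.univ.image fun v => (φ S v, g v) := by
      rw [← h1]
      exact Finset.mem_image_of_mem _ (Finset.mem_univ v)
    obtain ⟨v', -, hv'⟩ := Finset.mem_image.1 h3
    obtain ⟨h4, h5⟩ := Prod.ext_iff.1 hv'
    have h6 : v' = v := (φ S).injective h4
    rw [← h6]
    rw [h6] at h5 ⊢
    exact h5.symm
  rw [hfg]

/-- Averaging over the deletion of one vertex. -/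
theorem iMax_succ {V : Type} [Fintype V] (H : SimpleGraph V) (n : ℕ) :
    (n + 1 - Fintype.card V) * iMax H (n + 1) ≤ (n + 1) * iMax H n := by
  classical
  obtain ⟨G, hG⟩ : ∃ G : SimpleGraph (Fin (n + 1)), cnt H G = iMax H (n + 1) :=
    exists_eq_ciSup_of_finite
  rw [← hG]
  have h1 : (n + 1 - Fintype.card V) * cnt H G =
      Nat.card (Σ S : {S : Finset (Fin (n + 1)) // Nonempty (H ≃g G.induce (S : Set _))},
        {v : Fin (n + 1) // v ∉ S.1}) := by
    rw [Nat.card_sigma]
    have h2 : ∀ S : {S : Finset (Fin (n + 1)) // Nonempty (H ≃g G.induce (S : Set _))},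
        Nat.card {v : Fin (n + 1) // v ∉ S.1} = n + 1 - Fintype.card V := by
      intro S
      obtain ⟨e⟩ := S.2
      have h3 : Fintype.card V = S.1.card := by
        rw [Fintype.card_congr e.toEquiv]
        simp
      rw [Nat.card_eq_fintype_card, Fintype.card_subtype_compl, Fintype.card_fin, h3]
      simp
    rw [Finset.sum_congr rfl (fun S _ => h2 S), Finset.sum_const, smul_eq_mul, Finset.card_univ,
      mul_comm]
    unfold cnt
    rw [Nat.card_eq_fintype_card (α := {S : Finset (Fin (n + 1)) // _})]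
  have h2 : Nat.card (Σ v : Fin (n + 1),
      {S : Finset (Fin n) // Nonempty (H ≃g (G.comap (Fin.succAbove v)).induce (S : Set _))}) ≤
      (n + 1) * iMax H n := by
    rw [Nat.card_sigma]
    calc _ ≤ ∑ _v : Fin (n + 1), iMax H n := Finset.sum_le_sum fun v _ => le_ciSup (bdd H n) _
      _ = _ := by simp
  rw [h1]
  refine le_trans ?_ h2
  have hpre : ∀ (S : Finset (Fin (n + 1))) (v : Fin (n + 1)), v ∉ S →
      ((Finset.univ.filter fun i : Fin n => v.succAbove i ∈ S).map (Fin.succAboveEmb v))
        = S := by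
    intro S v hv
    ext w
    simp only [Finset.mem_map, Finset.mem_filter, Finset.mem_univ, true_and]
    constructor
    · rintro ⟨i, hi, rfl⟩
      exact hi
    · intro hw
      have : w ≠ v := fun h => hv (h ▸ hw)
      obtain ⟨i, hi⟩ := Fin.exists_succAbove_eq this
      exact ⟨i, by rw [hi]; exact hw, hi⟩
  refine Nat.card_le_card_of_injective (fun p => ⟨p.2.1,
    ⟨Finset.univ.filter fun i : Fin n => p.2.1.succAbove i ∈ p.1.1, ?_⟩⟩) ?_
  · obtain ⟨φ, hφ⟩ := (copy_iff H G _).1 p.1.2
    have hne : ∀ a, φ a ≠ p.2.1 := by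
      intro a h
      apply p.2.2
      have : φ a ∈ Set.range φ := ⟨a, rfl⟩
      rw [hφ] at this
      rw [← h]
      exact this
    choose ψ hψ using fun a => Fin.exists_succAbove_eq (hne a)
    refine (copy_iff H _ _).2 ⟨⟨⟨ψ, ?_⟩, ?_⟩, ?_⟩
    · intro a b hab
      apply φ.injective
      rw [← hψ a, ← hψ b, hab]
    · intro a b
      show G.Adj (p.2.1.succAbove (ψ a)) (p.2.1.succAbove (ψ b)) ↔ H.Adj a b
      rw [hψ a, hψ b]
      exact φ.map_adj_iff
    · ext i
      simp only [Finset.coe_filter, Finset.mem_univ, true_and, Set.mem_ofPred_eq, Set.mem_range]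
      constructor
      · rintro ⟨a, rfl⟩
        show p.2.1.succAbove (ψ a) ∈ p.1.1
        rw [hψ a]
        have : φ a ∈ Set.range φ := ⟨a, rfl⟩
        rw [hφ] at this
        exact this
      · intro hi
        have : p.2.1.succAbove i ∈ Set.range φ := by rw [hφ]; exact hi
        obtain ⟨a, ha⟩ := this
        refine ⟨a, ?_⟩
        show ψ a = i
        apply Fin.succAbove_right_injective (p := p.2.1)
        rw [hψ a, ha]
  · rintro ⟨S, v⟩ ⟨T, w⟩ h
    simp only [Sigma.mk.injEq] at h
    obtain ⟨h1, h2⟩ := h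
    obtain ⟨v, hv⟩ := v
    obtain ⟨w, hw⟩ := w
    simp only at h1
    subst h1
    have h3 := Subtype.ext_iff.1 (eq_of_heq h2)
    simp only at h3
    have h4 : S = T := by
      apply Subtype.ext
      rw [← hpre S.1 v hv, ← hpre T.1 v hw, h3]
    subst h4
    rfl

end Pool.Agent.TH723.Ind
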