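import Pool.Agent.TH723.Ind.Lim

set_option autoImplicit false

open Filter Topology

namespace Pool.Agent.TH723.Ind

theorem cnt_congr {V V' W : Type} {H : SimpleGraph V} {H' : SimpleGraph V'} (e : H ≃g H')
    (G : SimpleGraph W) : cnt H G = cnt H' G := by
  unfold cnt
  refine Nat.card_congr (Equiv.subtypeEquivRight fun S => ?_)
  exact ⟨fun ⟨f⟩ => ⟨e.symm.trans f⟩, fun ⟨f⟩ => ⟨e.trans f⟩⟩

theorem ind_congr {V V' : Type} [Fintype V] [Fintype V'] {H : SimpleGraph V}
    {H' : SimpleGraph V'} (e : H ≃g H') {ℓ : ℝ} (h : Inducibility H ℓ) : Inducibility H' ℓ := by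
  have h1 : Fintype.card V = Fintype.card V' := Fintype.card_congr e.toEquiv
  have h2 : ∀ n, iMax H n = iMax H' n := fun n => by
    unfold iMax
    exact iSup_congr fun G => cnt_congr e G
  unfold Inducibility at *
  rw [← h1]
  simpa only [h2] using h

theorem le_pow_self' {h : ℕ} (h2 : 2 ≤ h) : h < h ^ h := Nat.lt_pow_self (by omega)

theorem strict_of_copies {V W : Type} [Fintype V] [Fintype W] [Nonempty W] (H : SimpleGraph V)
    (F : SimpleGraph W) (h2 : 2 ≤ Fintype.card V)
    (hc : Fintype.card W ^ Fintype.card V <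
      cnt H F * (Fintype.card V ^ Fintype.card V - Fintype.card V)) {ℓ : ℝ}
    (hℓ : Inducibility H ℓ) :
    ((Fintype.card V).factorial : ℝ) / ((Fintype.card V : ℝ) ^ Fintype.card V - Fintype.card V)
      < ℓ := by
  refine lt_of_lt_of_le ?_ (lower H F hℓ)
  set h := Fintype.card V
  set N := Fintype.card W with hN
  have hlt := le_pow_self' h2
  have hN0 : 0 < N := Fintype.card_pos
  have hf : (0 : ℝ) < (h.factorial : ℝ) := by exact_mod_cast Nat.factorial_pos h
  have h3 : ((h ^ h - h : ℕ) : ℝ) = (h : ℝ) ^ h - h := by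
    rw [Nat.cast_sub hlt.le]
    push_cast
    rfl
  have h4 : (0 : ℝ) < (h : ℝ) ^ h - h := by
    rw [← h3]
    exact_mod_cast Nat.sub_pos_of_lt hlt
  have h5 : (N : ℝ) ^ h < (cnt H F : ℝ) * ((h : ℝ) ^ h - h) := by
    rw [← h3]
    exact_mod_cast hc
  have hNr : (0 : ℝ) < (N : ℝ) ^ h := by
    have : (0 : ℝ) < (N : ℝ) := by exact_mod_cast hN0
    positivity
  rw [div_lt_div_iff₀ h4 hNr, mul_assoc]
  exact mul_lt_mul_of_pos_left h5 hf

theorem three {V W : Type} [Fintype W] (H : SimpleGraph V) (F : SimpleGraph W)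
    (φ : Fin 3 → (H ↪g F)) (hφ : Function.Injective fun k => Set.range (φ k)) :
    3 ≤ cnt H F := by
  classical
  have : Nat.card (Fin 3) ≤ cnt H F := by
    unfold cnt
    refine Nat.card_le_card_of_injective
      (fun k => ⟨(Set.range (φ k)).toFinset, (copy_iff H F _).2 ⟨φ k, by simp⟩⟩) ?_
    intro k l h
    apply hφ
    have := congrArg Subtype.val h
    simpa using this
  simpa using this

theorem num3 {h : ℕ} (h3 : 3 ≤ h) : (h + 1) ^ h < 3 * (h ^ h - h) := by
  rcases Nat.lt_or_ge h 4 with h4 | h4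
  · have : h = 3 := by omega
    subst this
    norm_num
  have hlt := le_pow_self' (by omega : 2 ≤ h)
  have hr : ((h : ℝ) + 1) ^ h < 3 * ((h : ℝ) ^ h - h) := by
    have hh : (4 : ℝ) ≤ (h : ℝ) := by exact_mod_cast h4
    have hh0 : (0 : ℝ) < (h : ℝ) := by linarith
    have e1 : (h : ℝ) + 1 = h * (1 + 1 / h) := by field_simp
    have e2 : (1 + 1 / (h : ℝ)) ^ h ≤ Real.exp 1 := by
      calc (1 + 1 / (h : ℝ)) ^ h ≤ (Real.exp (1 / h)) ^ h := by
            refine pow_le_pow_left₀ (by positivity) ?_ h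
            rw [add_comm]
            exact Real.add_one_le_exp _
        _ = Real.exp 1 := by
            rw [← Real.exp_nat_mul]
            congr 1
            field_simp
    have e3 : Real.exp 1 < 2.7182818286 := Real.exp_one_lt_d9
    have e4 : (h : ℝ) ^ h = (h : ℝ) ^ (h - 1) * h := by
      rw [← pow_succ]
      congr 1
      omega
    have e5 : (64 : ℝ) ≤ (h : ℝ) ^ (h - 1) := by
      calc (64 : ℝ) = 4 ^ 3 := by norm_num
        _ ≤ (h : ℝ) ^ 3 := pow_le_pow_left₀ (by norm_num) hh 3
        _ ≤ (h : ℝ) ^ (h - 1) := pow_le_pow_right₀ (by linarith) (by omega)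
    have e6 : (0 : ℝ) < (h : ℝ) ^ h := by positivity
    rw [e1, mul_pow]
    have e7 : (h : ℝ) ^ h * (1 + 1 / (h : ℝ)) ^ h ≤ (h : ℝ) ^ h * 2.7182818286 :=
      mul_le_mul_of_nonneg_left (e2.trans e3.le) e6.le
    nlinarith
  have h5 : ((h ^ h - h : ℕ) : ℝ) = (h : ℝ) ^ h - h := by
    rw [Nat.cast_sub hlt.le]
    push_cast
    rfl
  have : (((h + 1) ^ h : ℕ) : ℝ) < ((3 * (h ^ h - h) : ℕ) : ℝ) := by
    push_cast [h5]
    exact hr
  exact_mod_cast this

/-- If some graph with one more vertex than `H` contains three induced copies of `H`, then the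
inducibility of `H` exceeds `h!/(h^h-h)`. -/
theorem strict_of_three {V W : Type} [Fintype V] [Fintype W] (H : SimpleGraph V)
    (F : SimpleGraph W) (h3 : 3 ≤ Fintype.card V) (hW : Fintype.card W = Fintype.card V + 1)
    (hc : 3 ≤ cnt H F) {ℓ : ℝ} (hℓ : Inducibility H ℓ) :
    ((Fintype.card V).factorial : ℝ) / ((Fintype.card V : ℝ) ^ Fintype.card V - Fintype.card V)
      < ℓ := by
  haveI : Nonempty W := Fintype.card_pos_iff.1 (by omega)
  refine strict_of_copies H F (by omega) ?_ hℓ
  rw [hW]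
  exact (num3 h3).trans_le (Nat.mul_le_mul_right _ hc)

/-- Vertex-deleted subgraphs of vertex-transitive graphs. -/
theorem transitive_cnt {V W : Type} [Fintype W] (H : SimpleGraph V) (F : SimpleGraph W)
    (ht : ∀ v w : W, ∃ e : F ≃g F, e v = w) (w0 : W) (e0 : H ≃g F.induce {x | x ≠ w0}) :
    Fintype.card W ≤ cnt H F := by
  classical
  have : Nat.card W ≤ cnt H F := by
    unfold cnt
    refine Nat.card_le_card_of_injective
      (fun w => ⟨Finset.univ.erase w, ?_⟩) ?_
    · obtain ⟨e, he⟩ := ht w0 w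
      obtain ⟨φ, hφ⟩ := (copy_iff H F _).1 ⟨e0⟩
      refine (copy_iff H F _).2 ⟨e.toEmbedding.comp φ, ?_⟩
      ext x
      simp only [Finset.coe_erase, Finset.coe_univ]
      constructor
      · rintro ⟨a, rfl⟩
        have h1 : φ a ∈ Set.range φ := ⟨a, rfl⟩
        rw [hφ] at h1
        refine ⟨trivial, ?_⟩
        intro h2
        apply h1
        have h3 : e (φ a) = w := h2
        exact e.injective (h3.trans he.symm)
      · rintro ⟨-, hx⟩
        have h1 : e.symm x ∈ {x | x ≠ w0} := by
          intro h2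
          apply hx
          rw [← he, ← h2]
          simp
        rw [← hφ] at h1
        obtain ⟨a, ha⟩ := h1
        exact ⟨a, by
          show e (φ a) = x
          rw [ha]
          simp⟩
    · intro v w h
      have h1 : Finset.univ.erase v = Finset.univ.erase w := congrArg Subtype.val h
      by_contra hne
      have h2 : v ∈ Finset.univ.erase w := Finset.mem_erase.2 ⟨hne, Finset.mem_univ _⟩
      rw [← h1] at h2
      exact Finset.notMem_erase v _ h2
  simpa using this

end Pool.Agent.TH723.Ind
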