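import Pool.Agent.TH723.Ind.Crit

set_option autoImplicit false

open Filter Topology Asymptotics

namespace Pool.Agent.TH723.Ind

/-- `h!/(h^h-h)` -/
noncomputable def c (h : ℕ) : ℝ := (h.factorial : ℝ) / ((h : ℝ) ^ h - h)

theorem cnt_compl {V W : Type} (H : SimpleGraph V) (G : SimpleGraph W) : cnt Hᶜ Gᶜ = cnt H G := by
  have key : ∀ (H : SimpleGraph V) (G : SimpleGraph W) (S : Set W),
      Nonempty (H ≃g G.induce S) → Nonempty (Hᶜ ≃g Gᶜ.induce S) := by
    rintro H G S ⟨e⟩
    refine ⟨⟨e.toEquiv, ?_⟩⟩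
    intro a b
    show Gᶜ.Adj (e a) (e b) ↔ Hᶜ.Adj a b
    rw [SimpleGraph.compl_adj, SimpleGraph.compl_adj]
    have h1 : G.Adj (e a) (e b) ↔ H.Adj a b := e.map_adj_iff
    have h2 : ((e a : W) ≠ (e b : W)) ↔ a ≠ b := by
      rw [not_iff_not]
      exact ⟨fun h => e.injective (Subtype.ext h), fun h => by rw [h]⟩
    rw [h1, h2]
  unfold cnt
  refine Nat.card_congr (Equiv.subtypeEquivRight fun S => ⟨fun h => ?_, key H G S⟩)
  have := key _ _ _ h
  rwa [compl_compl, compl_compl] at this

theorem ind_compl {V : Type} [Fintype V] {H : SimpleGraph V} {ℓ : ℝ} (h : Inducibility Hᶜ ℓ) :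
    Inducibility H ℓ := by
  have h2 : ∀ n, iMax Hᶜ n = iMax H n := fun n => by
    unfold iMax
    refine le_antisymm (ciSup_le fun G => ?_) (ciSup_le fun G => ?_)
    · have h3 := cnt_compl H Gᶜ
      rw [compl_compl] at h3
      rw [h3]
      exact le_ciSup (bdd H n) Gᶜ
    · rw [← cnt_compl H G]
      exact le_ciSup (bdd Hᶜ n) Gᶜ
  unfold Inducibility at *
  simpa only [h2] using h

theorem criterion {V : Type} [Fintype V] (H : SimpleGraph V) (h2 : 2 ≤ Fintype.card V) {ℓ : ℝ}
    (hℓ : Inducibility H ℓ) :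
    c (Fintype.card V) < ℓ ↔ ∃ (N : ℕ) (F : SimpleGraph (Fin N)),
      N ^ Fintype.card V < cnt H F * (Fintype.card V ^ Fintype.card V - Fintype.card V) := by
  constructor
  · intro hc
    set h := Fintype.card V with hh
    have hf : (0 : ℝ) < (h.factorial : ℝ) := by exact_mod_cast Nat.factorial_pos h
    have hlt := le_pow_self' h2
    have h3 : ((h ^ h - h : ℕ) : ℝ) = (h : ℝ) ^ h - h := by
      rw [Nat.cast_sub hlt.le]
      push_cast
      rfl
    have h4 : (0 : ℝ) < (h : ℝ) ^ h - h := by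
      rw [← h3]
      exact_mod_cast Nat.sub_pos_of_lt hlt
    have hev : ∀ᶠ n : ℕ in atTop, c h < (iMax H n : ℝ) / (n.choose h : ℝ) *
        ((n.choose h : ℝ) / ((n : ℝ) ^ h / (h.factorial : ℝ))) := by
      have e1 : Tendsto (fun n : ℕ => (n.choose h : ℝ) / ((n : ℝ) ^ h / (h.factorial : ℝ))) atTop
          (𝓝 1) := by
        refine (isEquivalent_iff_tendsto_one ?_).1 (isEquivalent_choose h)
        filter_upwards [eventually_ge_atTop 1] with n hn
        have : (0 : ℝ) < (n : ℝ) := by exact_mod_cast hn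
        positivity
      have e2 := (hℓ.mul e1)
      rw [mul_one] at e2
      exact e2.eventually (lt_mem_nhds hc)
    obtain ⟨n, hn, hn1⟩ := (hev.and (eventually_ge_atTop (h + 1))).exists
    obtain ⟨G, hG⟩ : ∃ G : SimpleGraph (Fin n), cnt H G = iMax H n :=
      exists_eq_ciSup_of_finite
    refine ⟨n, G, ?_⟩
    rw [hG]
    have hn0 : (0 : ℝ) < (n : ℝ) := by exact_mod_cast (by omega : 0 < n)
    have hch : (0 : ℝ) < (n.choose h : ℝ) := by exact_mod_cast Nat.choose_pos (by omega)
    have e3 : (iMax H n : ℝ) / (n.choose h : ℝ) *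
        ((n.choose h : ℝ) / ((n : ℝ) ^ h / (h.factorial : ℝ))) =
        (h.factorial : ℝ) * (iMax H n : ℝ) / (n : ℝ) ^ h := by
      field_simp
    rw [e3, c, div_lt_div_iff₀ h4 (by positivity), mul_assoc] at hn
    have h5 := lt_of_mul_lt_mul_left hn hf.le
    rw [← h3] at h5
    exact_mod_cast h5
  · rintro ⟨N, F, hF⟩
    rcases Nat.eq_zero_or_pos N with rfl | hN
    · exfalso
      have : cnt H F = 0 := by
        unfold cnt
        rw [Nat.card_eq_zero]
        left
        refine ⟨fun S => ?_⟩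
        obtain ⟨e⟩ := S.2
        obtain ⟨v⟩ : Nonempty V := Fintype.card_pos_iff.1 (by omega)
        exact (e v).1.elim0
      rw [this, zero_mul] at hF
      exact absurd hF (Nat.not_lt_zero _)
    · haveI : Nonempty (Fin N) := ⟨⟨0, hN⟩⟩
      refine strict_of_copies H F h2 ?_ hℓ
      simpa using hF

theorem path_three {k : ℕ} (hk : 3 ≤ k) :
    3 ≤ cnt (SimpleGraph.pathGraph k) (SimpleGraph.cycleGraph (k + 1)) := by
  let s : Fin 3 → Fin (k + 1) := fun x => ⟨x.1, by omega⟩
  have hs : Function.Injective s := fun x y h =>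
    Fin.ext (congrArg (fun z : Fin (k + 1) => z.val) h)
  have hv : ∀ i j : Fin k, (Fin.castSucc i - Fin.castSucc j : Fin (k + 1)).val = 1 ↔
      j.val + 1 = i.val := by
    intro i j
    rw [Fin.sub_def]
    simp only [Fin.val_castSucc]
    rcases Nat.lt_or_ge i.val j.val with h | h
    · rw [Nat.mod_eq_of_lt (by omega)]
      omega
    · have : k + 1 - j.val + i.val = (i.val - j.val) + (k + 1) := by omega
      rw [this, Nat.add_mod_right, Nat.mod_eq_of_lt (by omega)]
      omega
  refine three _ _ (fun x => ⟨⟨fun i => Fin.castSucc i + s x, ?_⟩, ?_⟩) ?_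
  · intro i j h
    exact Fin.castSucc_injective k (add_right_cancel h)
  · intro i j
    show (SimpleGraph.cycleGraph (k + 1)).Adj (Fin.castSucc i + s x) (Fin.castSucc j + s x) ↔
      (SimpleGraph.pathGraph k).Adj i j
    rw [SimpleGraph.cycleGraph_adj', SimpleGraph.pathGraph_adj, add_sub_add_right_eq_sub,
      add_sub_add_right_eq_sub, hv, hv]
    tauto
  · intro x y h
    apply hs
    by_contra hne
    have h1 : Fin.last k + s x ∉ Set.range (fun i : Fin k => Fin.castSucc i + s x) := by
      rintro ⟨i, hi⟩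
      exact (Fin.castSucc_lt_last i).ne (add_right_cancel hi)
    apply h1
    have h2 : Set.range (fun i : Fin k => Fin.castSucc i + s x) =
        Set.range (fun i : Fin k => Fin.castSucc i + s y) := h
    rw [h2]
    have h3 : Fin.last k + s x - s y ≠ Fin.last k := by
      intro h4
      apply hne
      have : Fin.last k + (s x - s y) = Fin.last k + 0 := by
        rw [add_zero, ← add_sub_assoc]
        exact h4
      exact sub_eq_zero.1 (add_left_cancel this)
    obtain ⟨i, hi⟩ := Fin.exists_castSucc_eq.2 h3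
    exact ⟨i, by show Fin.castSucc i + s y = _; rw [hi, sub_add_cancel]⟩

theorem path_strict {V : Type} [Fintype V] (H : SimpleGraph V) {k : ℕ} (hk : 3 ≤ k)
    (e : H ≃g SimpleGraph.pathGraph k) {ℓ : ℝ} (hℓ : Inducibility H ℓ) :
    c (Fintype.card V) < ℓ := by
  have h1 : Fintype.card V = k := by
    rw [Fintype.card_congr e.toEquiv, Fintype.card_fin]
  refine strict_of_three H (SimpleGraph.cycleGraph (k + 1)) (by omega) (by simp [h1]) ?_ hℓ
  rw [cnt_congr e]
  exact path_three hk

end Pool.Agent.TH723.Ind
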