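import Pool.Agent.TH723.Ind.Basic

set_option autoImplicit false

open Filter Topology

namespace Pool.Agent.TH723.Ind

/-- the inducibility of `H` is `ℓ` -/
def Inducibility {V : Type} [Fintype V] (H : SimpleGraph V) (ℓ : ℝ) : Prop :=
  Tendsto (fun n : ℕ => (iMax H n : ℝ) / (n.choose (Fintype.card V) : ℝ)) atTop (𝓝 ℓ)

theorem exists_lim {V : Type} [Fintype V] (H : SimpleGraph V) : ∃ ℓ : ℝ, Inducibility H ℓ := by
  set h := Fintype.card V with hh
  have hanti : Antitone fun k : ℕ => (iMax H (k + h) : ℝ) / ((k + h).choose h : ℝ) := by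
    refine antitone_nat_of_succ_le fun k => ?_
    have h1 := iMax_succ H (k + h)
    rw [← hh] at h1
    have h2 := Nat.choose_mul_succ_eq (k + h) h
    have h3 : (k + h + 1 - h : ℕ) = k + 1 := by omega
    rw [h3] at h1 h2
    have e1 : k + 1 + h = k + h + 1 := by omega
    rw [e1]
    have p1 : (0 : ℝ) < ((k + h).choose h : ℝ) := by
      exact_mod_cast Nat.choose_pos (by omega)
    have p2 : (0 : ℝ) < ((k + h + 1).choose h : ℝ) := by
      exact_mod_cast Nat.choose_pos (by omega)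
    rw [div_le_div_iff₀ p2 p1]
    have h1' : ((k : ℝ) + 1) * (iMax H (k + h + 1) : ℝ) ≤ ((k + h : ℕ) + 1 : ℝ) * (iMax H (k + h) : ℝ) := by
      exact_mod_cast h1
    have h2' : ((k + h).choose h : ℝ) * ((k + h : ℕ) + 1 : ℝ) =
        ((k + h + 1).choose h : ℝ) * ((k : ℝ) + 1) := by
      exact_mod_cast h2
    have hk : (0 : ℝ) < (k : ℝ) + 1 := by positivity
    refine le_of_mul_le_mul_left ?_ hk
    calc ((k : ℝ) + 1) * ((iMax H (k + h + 1) : ℝ) * ((k + h).choose h : ℝ))
        = (((k : ℝ) + 1) * (iMax H (k + h + 1) : ℝ)) * ((k + h).choose h : ℝ) := by ring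
      _ ≤ (((k + h : ℕ) + 1 : ℝ) * (iMax H (k + h) : ℝ)) * ((k + h).choose h : ℝ) :=
          mul_le_mul_of_nonneg_right h1' p1.le
      _ = (iMax H (k + h) : ℝ) * (((k + h).choose h : ℝ) * ((k + h : ℕ) + 1 : ℝ)) := by ring
      _ = ((k : ℝ) + 1) * ((iMax H (k + h) : ℝ) * ((k + h + 1).choose h : ℝ)) := by
          rw [h2']; ring
  have hbdd : BddBelow (Set.range fun k : ℕ => (iMax H (k + h) : ℝ) / ((k + h).choose h : ℝ)) := by
    refine ⟨0, ?_⟩
    rintro _ ⟨k, rfl⟩
    positivity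
  exact ⟨_, (tendsto_add_atTop_iff_nat h).1 (tendsto_atTop_ciInf hanti hbdd)⟩

/-- Lower bound from the balanced blow-ups of a graph `F`. -/
theorem lower {V W : Type} [Fintype V] [Fintype W] [Nonempty W] (H : SimpleGraph V)
    (F : SimpleGraph W) {ℓ : ℝ} (hℓ : Inducibility H ℓ) :
    ((Fintype.card V).factorial : ℝ) * (cnt H F : ℝ) /
      (Fintype.card W : ℝ) ^ Fintype.card V ≤ ℓ := by
  set h := Fintype.card V with hh
  set N := Fintype.card W with hN
  have hN0 : 0 < N := Fintype.card_pos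
  have hsub : Tendsto (fun t : ℕ => N * t) atTop atTop :=
    tendsto_id.const_mul_atTop' hN0
  have hlim := hℓ.comp hsub
  refine ge_of_tendsto hlim ?_
  filter_upwards [eventually_ge_atTop (h + 1)] with t ht
  show _ ≤ (iMax H (N * t) : ℝ) / ((N * t).choose h : ℝ)
  have h1 : cnt H F * t ^ h ≤ iMax H (N * t) := by
    refine (blow_cnt H F t).trans (cnt_le_iMax H _ _ ?_)
    simp [hN]
  have hge : h ≤ N * t := by nlinarith
  have hc : (0 : ℝ) < ((N * t).choose h : ℝ) := by exact_mod_cast Nat.choose_pos hge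
  have ht0 : (0 : ℝ) < (t : ℝ) := by exact_mod_cast (by omega : 0 < t)
  have hNr : (0 : ℝ) < (N : ℝ) := by exact_mod_cast hN0
  have h2 : ((N * t).choose h : ℝ) ≤ ((N * t : ℕ) : ℝ) ^ h / (h.factorial : ℝ) :=
    Nat.choose_le_pow_div h (N * t)
  have hf : (0 : ℝ) < (h.factorial : ℝ) := by exact_mod_cast Nat.factorial_pos h
  calc (h.factorial : ℝ) * (cnt H F : ℝ) / (N : ℝ) ^ h
      = ((cnt H F : ℝ) * (t : ℝ) ^ h) / (((N * t : ℕ) : ℝ) ^ h / (h.factorial : ℝ)) := by
        push_cast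
        rw [mul_pow]
        field_simp
    _ ≤ ((cnt H F : ℝ) * (t : ℝ) ^ h) / ((N * t).choose h : ℝ) :=
        div_le_div_of_nonneg_left (by positivity) hc h2
    _ ≤ (iMax H (N * t) : ℝ) / ((N * t).choose h : ℝ) := by
        refine div_le_div_of_nonneg_right ?_ hc.le
        exact_mod_cast h1

/-- `M` is a module (homogeneous set) of `H`: every vertex outside `M` is adjacent to all vertices
of `M` or to none. -/
def IsModule {V : Type} (H : SimpleGraph V) (M : Finset V) : Prop :=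
  ∀ v, v ∉ M → (∀ u ∈ M, H.Adj v u) ∨ ∀ u ∈ M, ¬ H.Adj v u

/-- two level graph -/
def two {V : Type} (H : SimpleGraph V) (M : Finset V) : SimpleGraph (V × M) where
  Adj x y := H.Adj x.1 y.1 ∨ (x.1 = y.1 ∧ x.1 ∈ M ∧ H.Adj x.2 y.2)
  symm := by
    constructor
    rintro x y (h | ⟨h1, h2, h3⟩)
    · exact Or.inl h.symm
    · exact Or.inr ⟨h1.symm, h1 ▸ h2, h3.symm⟩
  loopless := by
    constructor
    rintro x (h | ⟨-, -, h⟩)
    · exact H.irrefl h
    · exact H.irrefl h

theorem two_cnt {V : Type} [Fintype V] [DecidableEq V] (H : SimpleGraph V) (M : Finset V)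
    (hM : IsModule H M) (h2 : 2 ≤ M.card) :
    M.card ^ Fintype.card V + M.card * M.card ^ (Fintype.card V - M.card) ≤ cnt H (two H M) := by
  classical
  have hne : M.Nonempty := Finset.card_pos.1 (by omega)
  have hc : M.card ^ Fintype.card V + M.card * M.card ^ (Fintype.card V - M.card) =
      Nat.card ((V → M) ⊕ (M × ({v : V // v ∉ M} → M))) := by
    rw [Nat.card_sum, Nat.card_prod]
    simp [Fintype.card_subtype_compl]
  rw [hc]
  unfold cnt
  let φ : M → ({v : V // v ∉ M} → M) → V → V × M := fun v0 g v =>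
    if hv : v ∈ M then (v0.1, ⟨v, hv⟩) else (v, g ⟨v, hv⟩)
  have φ1 : ∀ v0 g v (hv : v ∈ M), φ v0 g v = (v0.1, ⟨v, hv⟩) := fun v0 g v hv => dif_pos hv
  have φ2 : ∀ v0 g v (hv : v ∉ M), φ v0 g v = (v, g ⟨v, hv⟩) := fun v0 g v hv => dif_neg hv
  have k1 : ∀ f : V → M, Nonempty (H ≃g (two H M).induce
      ((Finset.univ.image fun v => (v, f v) : Finset (V × M)) : Set (V × M))) := by
    intro f
    refine (copy_iff H _ _).2 ⟨⟨⟨fun v => (v, f v), ?_⟩, ?_⟩, ?_⟩
    · intro a b hab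
      exact (Prod.ext_iff.1 hab).1
    · intro a b
      show (H.Adj a b ∨ (a = b ∧ a ∈ M ∧ H.Adj (f a) (f b))) ↔ H.Adj a b
      constructor
      · rintro (h | ⟨h, -, h'⟩)
        · exact h
        · subst h
          exact absurd h' (H.irrefl)
      · exact Or.inl
    · simp only [Finset.coe_image, Finset.coe_univ, Set.image_univ]
      rfl
  have k2 : ∀ (v0 : M) (g : {v : V // v ∉ M} → M), Nonempty (H ≃g (two H M).induce
      ((Finset.univ.image (φ v0 g) : Finset (V × M)) : Set (V × M))) := by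
    intro v0 g
    refine (copy_iff H _ _).2 ⟨⟨⟨φ v0 g, ?_⟩, ?_⟩, ?_⟩
    · intro a b hab
      by_cases ha : a ∈ M <;> by_cases hb : b ∈ M
      · rw [φ1 _ _ _ ha, φ1 _ _ _ hb] at hab
        exact congrArg Subtype.val (Prod.ext_iff.1 hab).2
      · rw [φ1 _ _ _ ha, φ2 _ _ _ hb] at hab
        have := (Prod.ext_iff.1 hab).1
        simp only at this
        exact absurd (this ▸ v0.2) hb
      · rw [φ2 _ _ _ ha, φ1 _ _ _ hb] at hab
        have := (Prod.ext_iff.1 hab).1
        simp only at this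
        exact absurd (this ▸ v0.2) ha
      · rw [φ2 _ _ _ ha, φ2 _ _ _ hb] at hab
        exact (Prod.ext_iff.1 hab).1
    · intro a b
      show (H.Adj (φ v0 g a).1 (φ v0 g b).1 ∨ ((φ v0 g a).1 = (φ v0 g b).1 ∧ (φ v0 g a).1 ∈ M ∧
        H.Adj (φ v0 g a).2 (φ v0 g b).2)) ↔ H.Adj a b
      by_cases ha : a ∈ M <;> by_cases hb : b ∈ M
      · rw [φ1 _ _ _ ha, φ1 _ _ _ hb]
        simp
      · rw [φ1 _ _ _ ha, φ2 _ _ _ hb]
        have hne' : (v0 : V) ≠ b := fun h => hb (h ▸ v0.2)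
        simp only [hne', false_and, or_false]
        rcases hM b hb with h | h
        · exact iff_of_true (h _ v0.2).symm (h a ha).symm
        · exact iff_of_false (fun h' => h _ v0.2 h'.symm) (fun h' => h a ha h'.symm)
      · rw [φ2 _ _ _ ha, φ1 _ _ _ hb]
        have hne' : a ≠ (v0 : V) := fun h => ha (h ▸ v0.2)
        simp only [hne', false_and, or_false]
        rcases hM a ha with h | h
        · exact iff_of_true (h _ v0.2) (h b hb)
        · exact iff_of_false (h _ v0.2) (h b hb)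
      · rw [φ2 _ _ _ ha, φ2 _ _ _ hb]
        simp [ha]
    · simp only [Finset.coe_image, Finset.coe_univ, Set.image_univ]
      rfl
  refine Nat.card_le_card_of_injective
    (Sum.elim (fun f => ⟨_, k1 f⟩) (fun p => ⟨_, k2 p.1 p.2⟩)) ?_
  have d12 : ∀ (f : V → M) (v0 : M) (g : {v : V // v ∉ M} → M),
      (Finset.univ.image fun v => (v, f v)) ≠ (Finset.univ.image (φ v0 g)) := by
    intro f v0 g h
    obtain ⟨u1, u2, hu⟩ : ∃ u1 u2 : M, u1 ≠ u2 := by
      obtain ⟨a, ha, b, hb, hab⟩ := Finset.one_lt_card.1 (by omega : 1 < M.card)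
      exact ⟨⟨a, ha⟩, ⟨b, hb⟩, fun h => hab (congrArg Subtype.val h)⟩
    have hu1 : ∀ u : M, f v0 = u := by
      intro u
      have : (v0.1, u) ∈ Finset.univ.image fun v => (v, f v) := by
        rw [h]
        refine Finset.mem_image.2 ⟨u, Finset.mem_univ _, ?_⟩
        rw [φ1 _ _ _ u.2]
      obtain ⟨v, -, hv⟩ := Finset.mem_image.1 this
      obtain ⟨h3, h4⟩ := Prod.ext_iff.1 hv
      simp only at h3 h4
      rw [← h3]
      exact h4
    exact hu ((hu1 u1).symm.trans (hu1 u2))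
  rintro (f | ⟨v0, g⟩) (f' | ⟨v1, g'⟩) h
  · have h3 : (Finset.univ.image fun v => (v, f v)) = Finset.univ.image fun v => (v, f' v) :=
      congrArg Subtype.val h
    congr 1
    funext v
    have h4 : (v, f v) ∈ Finset.univ.image fun v => (v, f' v) := by
      rw [← h3]
      exact Finset.mem_image_of_mem _ (Finset.mem_univ v)
    obtain ⟨w, -, hw⟩ := Finset.mem_image.1 h4
    obtain ⟨h5, h6⟩ := Prod.ext_iff.1 hw
    simp only at h5 h6
    subst h5
    exact h6.symm
  · exact absurd (congrArg Subtype.val h) (d12 f v1 g')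
  · exact absurd (congrArg Subtype.val h).symm (d12 f' v0 g)
  · have h3 : (Finset.univ.image (φ v0 g)) = Finset.univ.image (φ v1 g') := congrArg Subtype.val h
    have hv : v0 = v1 := by
      obtain ⟨u, hu⟩ := hne
      have h4 : φ v0 g u ∈ Finset.univ.image (φ v1 g') := by
        rw [← h3]
        exact Finset.mem_image_of_mem _ (Finset.mem_univ u)
      obtain ⟨w, -, hw⟩ := Finset.mem_image.1 h4
      rw [φ1 _ _ _ hu] at hw
      by_cases hwM : w ∈ M
      · rw [φ1 _ _ _ hwM] at hw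
        exact (Subtype.ext (Prod.ext_iff.1 hw).1).symm
      · rw [φ2 _ _ _ hwM] at hw
        have h5 := (Prod.ext_iff.1 hw).1
        simp only at h5
        exact absurd (h5 ▸ v0.2) hwM
    subst hv
    have hg : g = g' := by
      funext v
      have h4 : φ v0 g v ∈ Finset.univ.image (φ v0 g') := by
        rw [← h3]
        exact Finset.mem_image_of_mem _ (Finset.mem_univ _)
      obtain ⟨w, -, hw⟩ := Finset.mem_image.1 h4
      rw [φ2 _ _ _ v.2] at hw
      by_cases hwM : w ∈ M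
      · rw [φ1 _ _ _ hwM] at hw
        have h5 := (Prod.ext_iff.1 hw).1
        simp only at h5
        exact absurd (h5 ▸ v0.2) v.2
      · rw [φ2 _ _ _ hwM] at hw
        obtain ⟨h5, h6⟩ := Prod.ext_iff.1 hw
        simp only at h5 h6
        subst h5
        exact h6.symm
    rw [hg]

theorem pow_lemma {m h : ℕ} (hm : 2 ≤ m) (hmh : m < h) : m ^ (m - 1) + 1 < h ^ (h - 1) := by
  have h1 : (m + 1) ^ m ≤ h ^ (h - 1) :=
    (Nat.pow_le_pow_left (by omega) m).trans (Nat.pow_le_pow_right (by omega) (by omega))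
  obtain ⟨k, rfl⟩ : ∃ k, m = k + 1 := ⟨m - 1, by omega⟩
  have h2 : (k + 1) ^ k ≤ (k + 1 + 1) ^ k := Nat.pow_le_pow_left (by omega) k
  have h3 : 1 ≤ (k + 1) ^ k := Nat.one_le_pow _ _ (by omega)
  have h4 : (k + 1 + 1) ^ (k + 1) = (k + 1 + 1) ^ k * (k + 1 + 1) := pow_succ _ _
  simp only [Nat.add_sub_cancel]
  nlinarith

theorem module_bound {V : Type} [Fintype V] (H : SimpleGraph V) (M : Finset V)
    (hM : IsModule H M) (h2 : 2 ≤ M.card) {ℓ : ℝ} (hℓ : Inducibility H ℓ) :
    ((Fintype.card V).factorial : ℝ) / (Fintype.card V : ℝ) ^ Fintype.card V *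
      (1 + 1 / (M.card : ℝ) ^ (M.card - 1)) ≤ ℓ := by
  classical
  obtain ⟨a, ha⟩ : M.Nonempty := Finset.card_pos.1 (by omega)
  haveI : Nonempty (V × M) := ⟨(a, ⟨a, ha⟩)⟩
  have h3 := lower H (two H M) hℓ
  have h4 := two_cnt H M hM h2
  have hle : M.card ≤ Fintype.card V := Finset.card_le_univ M
  set h := Fintype.card V
  set m := M.card with hm
  have h5 : Fintype.card (V × M) = h * m := by simp [h, hm]
  rw [h5] at h3
  refine le_trans ?_ h3
  have hm0 : (0 : ℝ) < (m : ℝ) := by exact_mod_cast (by omega : 0 < m)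
  have hh0 : (0 : ℝ) < (h : ℝ) := by exact_mod_cast (by omega : 0 < h)
  have h4' : (m : ℝ) ^ h + (m : ℝ) * (m : ℝ) ^ (h - m) ≤ (cnt H (two H M) : ℝ) := by
    exact_mod_cast h4
  have e1 : (m : ℝ) * (m : ℝ) ^ (h - m) * (m : ℝ) ^ (m - 1) = (m : ℝ) ^ h := by
    rw [← pow_succ', ← pow_add]
    congr 1
    omega
  have e2 : (m : ℝ) ^ h + (m : ℝ) * (m : ℝ) ^ (h - m) =
      (m : ℝ) ^ h * (1 + 1 / (m : ℝ) ^ (m - 1)) := by
    rw [mul_add, mul_one, ← e1]
    field_simp
  rw [e2] at h4'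
  have hf : (0 : ℝ) < (h.factorial : ℝ) := by exact_mod_cast Nat.factorial_pos h
  have hpos : (0 : ℝ) < ((h * m : ℕ) : ℝ) ^ h := by
    push_cast
    positivity
  calc (h.factorial : ℝ) / (h : ℝ) ^ h * (1 + 1 / (m : ℝ) ^ (m - 1))
      = (h.factorial : ℝ) * ((m : ℝ) ^ h * (1 + 1 / (m : ℝ) ^ (m - 1))) /
          ((h * m : ℕ) : ℝ) ^ h := by
        push_cast
        rw [mul_pow]
        field_simp
    _ ≤ _ := by
        refine div_le_div_of_nonneg_right ?_ hpos.le
        exact mul_le_mul_of_nonneg_left h4' hf.le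

theorem num_ineq {m h : ℕ} (hm : 2 ≤ m) (hmh : m < h) :
    (h.factorial : ℝ) / ((h : ℝ) ^ h - h) <
      (h.factorial : ℝ) / (h : ℝ) ^ h * (1 + 1 / (m : ℝ) ^ (m - 1)) := by
  have hf : (0 : ℝ) < (h.factorial : ℝ) := by exact_mod_cast Nat.factorial_pos h
  have hh : (0 : ℝ) < (h : ℝ) := by exact_mod_cast (by omega : 0 < h)
  have hm0 : (0 : ℝ) < (m : ℝ) := by exact_mod_cast (by omega : 0 < m)
  have h1 : ((m : ℝ) ^ (m - 1) + 1) < (h : ℝ) ^ (h - 1) := by
    exact_mod_cast pow_lemma hm hmh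
  have h2 : (h : ℝ) ^ h = (h : ℝ) * (h : ℝ) ^ (h - 1) := by
    rw [← pow_succ']
    congr 1
    omega
  set x := (h : ℝ) ^ (h - 1)
  set y := (m : ℝ) ^ (m - 1)
  have hy : 0 < y := by positivity
  have hx : 1 < x := by linarith
  rw [h2]
  have e1 : (h : ℝ) * x - h = h * (x - 1) := by ring
  have hx1 : 0 < x - 1 := by linarith
  rw [e1, div_mul_eq_mul_div, div_lt_div_iff₀ (by positivity) (by positivity)]
  have e2 : (h.factorial : ℝ) * (1 + 1 / y) * (h * (x - 1)) - (h.factorial : ℝ) * (h * x) =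
      (h.factorial : ℝ) * h * ((x - 1 - y) / y) := by
    field_simp
    ring
  have h3 : 0 < (h.factorial : ℝ) * h * ((x - 1 - y) / y) := by
    have : 0 < x - 1 - y := by linarith
    positivity
  linarith

end Pool.Agent.TH723.Ind
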