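import Pool.Agent.TH723.Ind.Lim

set_option autoImplicit false

open Filter Topology

namespace Pool.Agent.TH723.Ind

/-! Small graphs, coded by natural numbers. -/

def tb (g i j : ℕ) : Bool := g.testBit (5 * i + j)

def dig (p i : ℕ) : ℕ := p / 5 ^ i % 5

def modB (n g M : ℕ) : Bool :=
  (List.range n).all fun v => M.testBit v ||
    ((List.range n).all fun u => !M.testBit u || tb g v u) ||
    ((List.range n).all fun u => !M.testBit u || !tb g v u)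

def hasMod (n g : ℕ) : Bool :=
  (List.range (2 ^ n)).any fun M =>
    decide (2 ≤ Nat.count (fun i => M.testBit i = true) n) &&
      decide (Nat.count (fun i => M.testBit i = true) n < n) && modB n g M

def isoB (n g T p : ℕ) : Bool :=
  (List.range n).all fun i => decide (dig p i < n) &&
    (List.range n).all fun j => (tb g i j == tb T (dig p i) (dig p j)) &&
      (decide (i = j) || !decide (dig p i = dig p j))

def perms5 : List ℕ := [2930, 2430, 2830, 1830, 2230, 1730, 2910, 2410, 2710, 1210, 2110, 1110, 2790, 1790, 2690, 1190, 1490, 990, 2170, 1670, 2070, 1070, 1470, 970, 2926, 2426, 2826, 1826, 2226, 1726, 2886, 2386, 2586, 586, 1986, 486, 2766, 1766, 2566, 566, 1366, 366, 2146, 1646, 1946, 446, 1346, 346, 2902, 2402, 2702, 1202, 2102, 1102, 2882, 2382, 2582, 582, 1982, 482, 2642, 1142, 2542, 542, 742, 242, 2022, 1022, 1922, 422, 722, 222, 2778, 1778,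 2678, 1178, 1478, 978, 2758, 1758, 2558, 558, 1358, 358, 2638, 1138, 2538, 538, 738, 238, 1398, 898, 1298, 298, 698, 198, 2154, 1654, 2054, 1054, 1454, 954, 2134, 1634, 1934, 434, 1334, 334, 2014, 1014, 1914, 414, 714, 214, 1394, 894, 1294, 294, 694, 194]

def perms4 : List ℕ := [430, 330, 410, 210, 290, 190, 426, 326, 386, 86, 266, 66, 402, 202, 382, 82, 142, 42, 278, 178, 258, 58, 138, 38]

def c4 (b0 b1 b2 b3 b4 b5 : Bool) : ℕ :=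
  cond b0 (2 ^ 1 + 2 ^ 5) 0 + cond b1 (2 ^ 2 + 2 ^ 10) 0 + cond b2 (2 ^ 3 + 2 ^ 15) 0 +
  cond b3 (2 ^ 7 + 2 ^ 11) 0 + cond b4 (2 ^ 8 + 2 ^ 16) 0 + cond b5 (2 ^ 13 + 2 ^ 17) 0

def c5 (b0 b1 b2 b3 b4 b5 b6 b7 b8 b9 : Bool) : ℕ :=
  cond b0 (2 ^ 1 + 2 ^ 5) 0 + cond b1 (2 ^ 2 + 2 ^ 10) 0 + cond b2 (2 ^ 3 + 2 ^ 15) 0 +
  cond b3 (2 ^ 4 + 2 ^ 20) 0 + cond b4 (2 ^ 7 + 2 ^ 11) 0 + cond b5 (2 ^ 8 + 2 ^ 16) 0 +
  cond b6 (2 ^ 9 + 2 ^ 21) 0 + cond b7 (2 ^ 13 + 2 ^ 17) 0 + cond b8 (2 ^ 14 + 2 ^ 22) 0 +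
  cond b9 (2 ^ 19 + 2 ^ 23) 0

theorem all4 : ∀ b0 b1 b2 b3 b4 b5 : Bool,
    (hasMod 4 (c4 b0 b1 b2 b3 b4 b5) ||
      perms4.any fun p => isoB 4 (c4 b0 b1 b2 b3 b4 b5) 141474 p) = true := by
  decide +kernel

theorem all5 : ∀ b0 b1 b2 b3 b4 b5 b6 b7 b8 b9 : Bool,
    (hasMod 5 (c5 b0 b1 b2 b3 b4 b5 b6 b7 b8 b9) ||
      perms5.any fun p => isoB 5 (c5 b0 b1 b2 b3 b4 b5 b6 b7 b8 b9) 9054370 p ||
        isoB 5 (c5 b0 b1 b2 b3 b4 b5 b6 b7 b8 b9) 7456540 p ||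
        isoB 5 (c5 b0 b1 b2 b3 b4 b5 b6 b7 b8 b9) 1117622 p ||
        isoB 5 (c5 b0 b1 b2 b3 b4 b5 b6 b7 b8 b9) 10102962 p) = true := by
  decide +kernel

end Pool.Agent.TH723.Ind
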