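import Pool.Agent.TH723.Ind.Crit
import Pool.Agent.TH723.Ind.Table

set_option autoImplicit false

open Filter Topology

namespace Pool.Agent.TH723.Ind

theorem hasMod_spec {n g : ℕ} (H : SimpleGraph (Fin n))
    (hg : ∀ i j : Fin n, tb g i j = true ↔ H.Adj i j) (h : hasMod n g = true) :
    ∃ M : Finset (Fin n), IsModule H M ∧ 2 ≤ M.card ∧ M.card < n := by
  unfold hasMod at h
  rw [List.any_eq_true] at h
  obtain ⟨M, -, hM⟩ := h
  simp only [Bool.and_eq_true, decide_eq_true_eq] at hM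
  obtain ⟨⟨h1, h2⟩, h3⟩ := hM
  have hcard : (Finset.univ.filter fun i : Fin n => M.testBit i = true).card =
      Nat.count (fun i => M.testBit i = true) n := by
    rw [Nat.count_eq_card_filter_range, ← Finset.card_map Fin.valEmbedding]
    congr 1
    ext i
    simp only [Finset.mem_map, Finset.mem_filter, Finset.mem_univ, true_and, Finset.mem_range,
      Fin.valEmbedding_apply]
    constructor
    · rintro ⟨j, hj, rfl⟩
      exact ⟨j.2, hj⟩
    · rintro ⟨hi, hb⟩
      exact ⟨⟨i, hi⟩, hb, rfl⟩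
  refine ⟨Finset.univ.filter fun i : Fin n => M.testBit i = true, ?_, by rw [hcard]; exact h1,
    by rw [hcard]; exact h2⟩
  intro v hv
  unfold modB at h3
  rw [List.all_eq_true] at h3
  have h4 := h3 v (List.mem_range.2 v.2)
  have h5 : M.testBit v = false := by
    by_contra hne
    exact hv (Finset.mem_filter.2 ⟨Finset.mem_univ _, by simpa using hne⟩)
  rw [h5, Bool.false_or, Bool.or_eq_true, List.all_eq_true, List.all_eq_true] at h4
  rcases h4 with h4 | h4
  · left
    intro u hu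
    have h6 := h4 u (List.mem_range.2 u.2)
    have h7 : M.testBit u = true := (Finset.mem_filter.1 hu).2
    rw [h7, Bool.not_true, Bool.false_or] at h6
    exact (hg v u).1 h6
  · right
    intro u hu hadj
    have h6 := h4 u (List.mem_range.2 u.2)
    have h7 : M.testBit u = true := (Finset.mem_filter.1 hu).2
    rw [h7, Bool.not_true, Bool.false_or, (hg v u).2 hadj] at h6
    exact absurd h6 (by simp)

theorem isoB_spec {n g T p : ℕ} (H H' : SimpleGraph (Fin n))
    (hg : ∀ i j : Fin n, tb g i j = true ↔ H.Adj i j)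
    (hT : ∀ i j : Fin n, tb T i j = true ↔ H'.Adj i j) (h : isoB n g T p = true) :
    Nonempty (H ≃g H') := by
  unfold isoB at h
  rw [List.all_eq_true] at h
  have h1 : ∀ i : Fin n, dig p i < n ∧ ∀ j : Fin n, (tb g i j = tb T (dig p i) (dig p j)) ∧
      (i = j ∨ dig p i ≠ dig p j) := by
    intro i
    have h2 := h i (List.mem_range.2 i.2)
    rw [Bool.and_eq_true, decide_eq_true_eq, List.all_eq_true] at h2
    refine ⟨h2.1, fun j => ?_⟩
    have h3 := h2.2 j (List.mem_range.2 j.2)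
    simp only [Bool.and_eq_true, beq_iff_eq, Bool.or_eq_true, decide_eq_true_eq,
      Bool.not_eq_true', decide_eq_false_iff_not] at h3
    refine ⟨h3.1, h3.2.imp (fun h => Fin.ext h) (fun h => h)⟩
  let σ : Fin n → Fin n := fun i => ⟨dig p i, (h1 i).1⟩
  have hσ : Function.Injective σ := by
    intro i j hij
    rcases ((h1 i).2 j).2 with h2 | h2
    · exact h2
    · exact absurd (congrArg Fin.val hij) h2
  refine ⟨⟨Equiv.ofBijective σ (Finite.injective_iff_bijective.1 hσ), ?_⟩⟩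
  intro i j
  show H'.Adj (σ i) (σ j) ↔ H.Adj i j
  rw [← hT, ← hg, ((h1 i).2 j).1]

/-- the graph on `Fin n` coded by `T` -/
def cg (n T : ℕ) : SimpleGraph (Fin n) where
  Adj i j := tb T i j = true ∧ tb T j i = true ∧ i ≠ j
  symm := by
    constructor
    rintro i j ⟨h1, h2, h3⟩
    exact ⟨h2, h1, h3.symm⟩
  loopless := by
    constructor
    rintro i ⟨-, -, h⟩
    exact h rfl

instance (n T : ℕ) : DecidableRel (cg n T).Adj := fun i j =>
  inferInstanceAs (Decidable (tb T i j = true ∧ tb T j i = true ∧ i ≠ j))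

theorem cg4 : ∀ i j : Fin 4, tb 141474 i j = true ↔ (cg 4 141474).Adj i j := by decide +kernel
theorem cgP : ∀ i j : Fin 5, tb 9054370 i j = true ↔ (cg 5 9054370).Adj i j := by decide +kernel
theorem cgH : ∀ i j : Fin 5, tb 7456540 i j = true ↔ (cg 5 7456540).Adj i j := by decide +kernel
theorem cgB : ∀ i j : Fin 5, tb 1117622 i j = true ↔ (cg 5 1117622).Adj i j := by decide +kernel
theorem cgC : ∀ i j : Fin 5, tb 10102962 i j = true ↔ (SimpleGraph.cycleGraph 5).Adj i j := by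
  decide +kernel

/-- the net -/
def net : SimpleGraph (Fin 6) where
  Adj i j := (i, j) ∈ ([(0, 1), (1, 0), (0, 2), (2, 0), (1, 2), (2, 1), (0, 4), (4, 0), (1, 3),
    (3, 1), (2, 5), (5, 2)] : List (Fin 6 × Fin 6))
  symm := by
    constructor
    decide +kernel
  loopless := by
    constructor
    decide +kernel

instance : DecidableRel net.Adj := fun i j => inferInstanceAs (Decidable (_ ∈ _))

/-- embeddings from functions -/
def mkE {n m : ℕ} {H : SimpleGraph (Fin n)} {F : SimpleGraph (Fin m)} (f : Fin n → Fin m)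
    (h1 : ∀ i j, f i = f j → i = j) (h2 : ∀ i j, F.Adj (f i) (f j) ↔ H.Adj i j) : H ↪g F :=
  ⟨⟨f, fun i j h => h1 i j h⟩, fun {i j} => h2 i j⟩

theorem three' {n m : ℕ} {H : SimpleGraph (Fin n)} {F : SimpleGraph (Fin m)}
    (f : Fin 3 → Fin n → Fin m)
    (h1 : ∀ k i j, f k i = f k j → i = j) (h2 : ∀ k i j, F.Adj (f k i) (f k j) ↔ H.Adj i j)
    (h3 : ∀ k l : Fin 3, k ≠ l → ∃ i, ∀ j, f k i ≠ f l j) : 3 ≤ cnt H F := by
  refine three H F (fun k => mkE (f k) (h1 k) (h2 k)) ?_
  intro k l hkl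
  by_contra hne
  obtain ⟨i, hi⟩ := h3 k l hne
  have h4 : f k i ∈ Set.range (mkE (f k) (h1 k) (h2 k)) := ⟨i, rfl⟩
  have h5 : Set.range (mkE (f k) (h1 k) (h2 k)) = Set.range (mkE (f l) (h1 l) (h2 l)) := hkl
  rw [h5] at h4
  obtain ⟨j, hj⟩ := h4
  exact hi j hj.symm

theorem p4 : 3 ≤ cnt (cg 4 141474) (SimpleGraph.cycleGraph 5) :=
  three' (fun k i => Fin.castSucc i + ![0, 1, 2] k) (by decide +kernel) (by decide +kernel)
    (by decide +kernel)

theorem p5 : 3 ≤ cnt (cg 5 9054370) (SimpleGraph.cycleGraph 6) :=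
  three' (fun k i => Fin.castSucc i + ![0, 1, 2] k) (by decide +kernel) (by decide +kernel)
    (by decide +kernel)

theorem hou : 3 ≤ cnt (cg 5 7456540) (SimpleGraph.cycleGraph 6)ᶜ :=
  three' (fun k i => Fin.castSucc i + ![0, 1, 2] k) (by decide +kernel) (by decide +kernel)
    (by decide +kernel)

theorem bul : 3 ≤ cnt (cg 5 1117622) net :=
  three' (![![0, 1, 2, 3, 4], ![1, 2, 0, 5, 3], ![2, 0, 1, 4, 5]]) (by decide +kernel)
    (by decide +kernel) (by decide +kernel)

def tab4 (b0 b1 b2 b3 b4 b5 : Bool) : Fin 4 → Fin 4 → Bool :=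
  ![![false, b0, b1, b2], ![b0, false, b3, b4], ![b1, b3, false, b5], ![b2, b4, b5, false]]

theorem code4 : ∀ b0 b1 b2 b3 b4 b5 : Bool, ∀ i j : Fin 4,
    tb (c4 b0 b1 b2 b3 b4 b5) i j = tab4 b0 b1 b2 b3 b4 b5 i j := by
  decide +kernel

def tab5 (b0 b1 b2 b3 b4 b5 b6 b7 b8 b9 : Bool) : Fin 5 → Fin 5 → Bool :=
  ![![false, b0, b1, b2, b3], ![b0, false, b4, b5, b6], ![b1, b4, false, b7, b8],
    ![b2, b5, b7, false, b9], ![b3, b6, b8, b9, false]]

theorem code5 : ∀ b0 b1 b2 b3 b4 b5 b6 b7 b8 b9 : Bool, ∀ i j : Fin 5,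
    tb (c5 b0 b1 b2 b3 b4 b5 b6 b7 b8 b9) i j = tab5 b0 b1 b2 b3 b4 b5 b6 b7 b8 b9 i j := by
  decide +kernel

theorem strict_of_module {V : Type} [Fintype V] (H : SimpleGraph V) (M : Finset V)
    (hM : IsModule H M) (h2 : 2 ≤ M.card) (h3 : M.card < Fintype.card V) {ℓ : ℝ}
    (hℓ : Inducibility H ℓ) :
    ((Fintype.card V).factorial : ℝ) / ((Fintype.card V : ℝ) ^ Fintype.card V - Fintype.card V)
      < ℓ :=
  (num_ineq h2 h3).trans_le (module_bound H M hM h2 hℓ)

theorem small3 (H : SimpleGraph (Fin 3)) : ∃ M : Finset (Fin 3), IsModule H M ∧ 2 ≤ M.card ∧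
    M.card < 3 := by
  have a01 := H.adj_comm 0 1
  have a02 := H.adj_comm 0 2
  have a12 := H.adj_comm 1 2
  by_cases h01 : H.Adj 0 1 <;> by_cases h02 : H.Adj 0 2 <;> by_cases h12 : H.Adj 1 2
  all_goals
    first
    | refine ⟨{1, 2}, ?_, by decide, by decide⟩
      intro v hv
      fin_cases v <;> simp at hv ⊢ <;> tauto
    | refine ⟨{0, 2}, ?_, by decide, by decide⟩
      intro v hv
      fin_cases v <;> simp at hv ⊢ <;> tauto
    | refine ⟨{0, 1}, ?_, by decide, by decide⟩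
      intro v hv
      fin_cases v <;> simp at hv ⊢ <;> tauto

theorem small4 (H : SimpleGraph (Fin 4)) : (∃ M : Finset (Fin 4), IsModule H M ∧ 2 ≤ M.card ∧
    M.card < 4) ∨ Nonempty (H ≃g cg 4 141474) := by
  classical
  set b0 := decide (H.Adj 0 1) with e0
  set b1 := decide (H.Adj 0 2) with e1
  set b2 := decide (H.Adj 0 3) with e2
  set b3 := decide (H.Adj 1 2) with e3
  set b4 := decide (H.Adj 1 3) with e4
  set b5 := decide (H.Adj 2 3) with e5
  have hg : ∀ i j : Fin 4, tb (c4 b0 b1 b2 b3 b4 b5) i j = true ↔ H.Adj i j := by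
    intro i j
    rw [code4]
    fin_cases i <;> fin_cases j <;> simp [tab4, e0, e1, e2, e3, e4, e5, H.adj_comm] <;>
      exact H.adj_comm _ _
  have h := all4 b0 b1 b2 b3 b4 b5
  rw [Bool.or_eq_true, List.any_eq_true] at h
  rcases h with h | ⟨p, -, h⟩
  · exact Or.inl (hasMod_spec H hg h)
  · exact Or.inr (isoB_spec H _ hg cg4 h)

theorem small5 (H : SimpleGraph (Fin 5)) : (∃ M : Finset (Fin 5), IsModule H M ∧ 2 ≤ M.card ∧
    M.card < 5) ∨ Nonempty (H ≃g cg 5 9054370) ∨ Nonempty (H ≃g cg 5 7456540) ∨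
      Nonempty (H ≃g cg 5 1117622) ∨ Nonempty (H ≃g SimpleGraph.cycleGraph 5) := by
  classical
  set b0 := decide (H.Adj 0 1) with e0
  set b1 := decide (H.Adj 0 2) with e1
  set b2 := decide (H.Adj 0 3) with e2
  set b3 := decide (H.Adj 0 4) with e3
  set b4 := decide (H.Adj 1 2) with e4
  set b5 := decide (H.Adj 1 3) with e5
  set b6 := decide (H.Adj 1 4) with e6
  set b7 := decide (H.Adj 2 3) with e7
  set b8 := decide (H.Adj 2 4) with e8
  set b9 := decide (H.Adj 3 4) with e9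
  have hg : ∀ i j : Fin 5, tb (c5 b0 b1 b2 b3 b4 b5 b6 b7 b8 b9) i j = true ↔ H.Adj i j := by
    intro i j
    rw [code5]
    fin_cases i <;> fin_cases j <;>
      simp [tab5, e0, e1, e2, e3, e4, e5, e6, e7, e8, e9, H.adj_comm] <;>
      exact H.adj_comm _ _
  have h := all5 b0 b1 b2 b3 b4 b5 b6 b7 b8 b9
  rw [Bool.or_eq_true, List.any_eq_true] at h
  rcases h with h | ⟨p, -, h⟩
  · exact Or.inl (hasMod_spec H hg h)
  · right
    rw [Bool.or_eq_true, Bool.or_eq_true, Bool.or_eq_true] at h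
    rcases h with ((h | h) | h) | h
    · exact Or.inl (isoB_spec H _ hg cgP h)
    · exact Or.inr (Or.inl (isoB_spec H _ hg cgH h))
    · exact Or.inr (Or.inr (Or.inl (isoB_spec H _ hg cgB h)))
    · exact Or.inr (Or.inr (Or.inr (isoB_spec H _ hg cgC h)))

theorem strict_small {V : Type} [Fintype V] (H : SimpleGraph V) (h3 : 3 ≤ Fintype.card V)
    (h5 : Fintype.card V ≤ 5) (hC : ¬ Nonempty (H ≃g SimpleGraph.cycleGraph 5)) {ℓ : ℝ}
    (hℓ : Inducibility H ℓ) :
    ((Fintype.card V).factorial : ℝ) / ((Fintype.card V : ℝ) ^ Fintype.card V - Fintype.card V)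
      < ℓ := by
  classical
  obtain ⟨n, hn⟩ : ∃ n, n = Fintype.card V := ⟨_, rfl⟩
  let e : V ≃ Fin n := (Fintype.equivFin V).trans (finCongr hn.symm)
  let H' : SimpleGraph (Fin n) := H.comap e.symm
  have i1 : H ≃g H' := ⟨e, by
    intro a b
    show H.Adj (e.symm (e a)) (e.symm (e b)) ↔ H.Adj a b
    simp⟩
  have hℓ' := ind_congr i1 hℓ
  have hC' : ¬ Nonempty (H' ≃g SimpleGraph.cycleGraph 5) := fun ⟨f⟩ => hC ⟨i1.trans f⟩
  rw [← hn] at h3 h5 ⊢
  have key : ((Fintype.card (Fin n)).factorial : ℝ) / ((Fintype.card (Fin n) : ℝ) ^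
      Fintype.card (Fin n) - Fintype.card (Fin n)) < ℓ := by
    clear_value H'
    clear i1 hC hℓ
    clear e
    clear hn
    have hmod : (∃ M : Finset (Fin n), IsModule H' M ∧ 2 ≤ M.card ∧ M.card < n) →
        ((Fintype.card (Fin n)).factorial : ℝ) / ((Fintype.card (Fin n) : ℝ) ^
          Fintype.card (Fin n) - Fintype.card (Fin n)) < ℓ := by
      rintro ⟨M, hM, h1, h2⟩
      exact strict_of_module H' M hM h1 (by simpa using h2) hℓ'
    obtain rfl | rfl | rfl : n = 3 ∨ n = 4 ∨ n = 5 := by omega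
    · exact hmod (small3 H')
    · rcases small4 H' with h | ⟨⟨f⟩⟩
      · exact hmod h
      · refine strict_of_three H' (SimpleGraph.cycleGraph 5) (by simp) (by simp) ?_ hℓ'
        rw [cnt_congr f]
        exact p4
    · rcases small5 H' with h | ⟨⟨f⟩⟩ | ⟨⟨f⟩⟩ | ⟨⟨f⟩⟩ | h
      · exact hmod h
      · refine strict_of_three H' (SimpleGraph.cycleGraph 6) (by simp) (by simp) ?_ hℓ'
        rw [cnt_congr f]
        exact p5
      · refine strict_of_three H' (SimpleGraph.cycleGraph 6)ᶜ (by simp) (by simp) ?_ hℓ'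
        rw [cnt_congr f]
        exact hou
      · refine strict_of_three H' net (by simp) (by simp) ?_ hℓ'
        rw [cnt_congr f]
        exact bul
      · exact absurd h hC'
  simpa using key

end Pool.Agent.TH723.Ind
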