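import Pool.Agent.TH723.Ind.Sub
import Pool.Agent.TH723.Ind.Extra
import Pool.Agent.TH723.Ind.Small

set_option autoImplicit false

open Filter Topology Asymptotics

namespace Pool.Agent.TH723.Ind

/-- The lower bound of Pippenger and Golumbic. -/
theorem pg {V : Type} [Fintype V] (H : SimpleGraph V) (h2 : 2 ≤ Fintype.card V) {ℓ : ℝ}
    (hℓ : Inducibility H ℓ) : c (Fintype.card V) ≤ ℓ := by
  set h := Fintype.card V with hh
  have hlt := le_pow_self' h2
  have h4 : (0 : ℝ) < (h : ℝ) ^ h - h := by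
    have : (h : ℝ) < (h : ℝ) ^ h := by exact_mod_cast hlt
    linarith
  have hh0 : (0 : ℝ) < (h : ℝ) := by exact_mod_cast (by omega : 0 < h)
  have hhp : (0 : ℝ) < (h : ℝ) ^ h := by positivity
  have hf : (0 : ℝ) < (h.factorial : ℝ) := by exact_mod_cast Nat.factorial_pos h
  by_contra hcon
  rw [not_le, c, lt_div_iff₀ h4] at hcon
  have hx : (ℓ * (h : ℝ) ^ h - h.factorial) / h < ℓ := by
    rw [div_lt_iff₀ hh0]
    linarith
  obtain ⟨N, F, hN, hF⟩ := approx H hℓ hx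
  rw [← hh] at hF
  haveI : Nonempty (Fin N) := ⟨⟨0, hN⟩⟩
  haveI : Nonempty V := Fintype.card_pos_iff.1 (by omega)
  have h5 := lower H (lex H F) hℓ
  have h6 := lex_cnt H F h2
  rw [← hh, Fintype.card_prod, ← hh, Fintype.card_fin] at h5
  rw [← hh, Fintype.card_fin] at h6
  have hN0 : (0 : ℝ) < (N : ℝ) := by exact_mod_cast hN
  have hNp : (0 : ℝ) < (N : ℝ) ^ h := by positivity
  have h6' : (N : ℝ) ^ h + h * (cnt H F : ℝ) ≤ (cnt H (lex H F) : ℝ) := by exact_mod_cast h6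
  have h7 : (h.factorial : ℝ) * ((N : ℝ) ^ h + h * (cnt H F : ℝ)) / ((h * N : ℕ) : ℝ) ^ h ≤ ℓ := by
    refine le_trans ?_ h5
    refine div_le_div_of_nonneg_right ?_ (by positivity)
    exact mul_le_mul_of_nonneg_left h6' hf.le
  have h8 : (h.factorial : ℝ) * ((N : ℝ) ^ h + h * (cnt H F : ℝ)) / ((h * N : ℕ) : ℝ) ^ h =
      ((h.factorial : ℝ) + h * ((h.factorial : ℝ) * (cnt H F : ℝ) / (N : ℝ) ^ h)) / (h : ℝ) ^ h := by
    push_cast
    rw [mul_pow]
    field_simp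
  rw [h8, div_le_iff₀ hhp] at h7
  rw [div_lt_iff₀ hh0] at hF
  linarith

theorem module_ineq {V : Type} [Fintype V] (H : SimpleGraph V) (M : Finset V)
    (hM : IsModule H M) (hne : M.Nonempty) {ℓ ℓ' : ℝ} (hℓ : Inducibility H ℓ)
    (hℓ' : Inducibility (H.induce (M : Set V)) ℓ') :
    ((Fintype.card V).factorial : ℝ) * (M.card : ℝ) ^ M.card /
      ((Fintype.card V : ℝ) ^ Fintype.card V * (M.card.factorial : ℝ)) * ℓ' ≤ ℓ := by
  obtain ⟨a, ha⟩ := hne
  have hle : M.card ≤ Fintype.card V := Finset.card_le_univ M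
  have hcM : Fintype.card ((M : Set V) : Type) = M.card := by simp
  set h := Fintype.card V with hh
  set m := M.card with hm
  have hm0 : 0 < m := Finset.card_pos.2 ⟨a, ha⟩
  have hmr : (0 : ℝ) < (m : ℝ) := by exact_mod_cast hm0
  have hh0 : (0 : ℝ) < (h : ℝ) := by exact_mod_cast (by omega : 0 < h)
  have hf : (0 : ℝ) < (h.factorial : ℝ) := by exact_mod_cast Nat.factorial_pos h
  have hfm : (0 : ℝ) < (m.factorial : ℝ) := by exact_mod_cast Nat.factorial_pos m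
  set K : ℝ := (h.factorial : ℝ) * (m : ℝ) ^ m / ((h : ℝ) ^ h * (m.factorial : ℝ)) with hK
  have hK0 : 0 < K := by positivity
  by_contra hcon
  rw [not_le] at hcon
  have hx : ℓ / K < ℓ' := by
    rw [div_lt_iff₀ hK0]
    linarith
  obtain ⟨N, F, hN, hF⟩ := approx _ hℓ' hx
  rw [hcM] at hF
  haveI : Nonempty (Fin N) := ⟨⟨0, hN⟩⟩
  haveI : Nonempty V := ⟨a⟩
  have h5 := lower H (sub H M F) hℓ
  have h6 := sub_cnt H M hM F
  rw [← hh, Fintype.card_prod, ← hh, Fintype.card_fin] at h5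
  rw [← hh, Fintype.card_fin, ← hm] at h6
  have hN0 : (0 : ℝ) < (N : ℝ) := by exact_mod_cast hN
  have hNp : (0 : ℝ) < (N : ℝ) ^ h := by positivity
  set q : ℝ := (cnt (H.induce (M : Set V)) F : ℝ) with hq
  have h6' : q * ((m : ℝ) ^ m * (N : ℝ) ^ (h - m)) ≤ (cnt H (sub H M F) : ℝ) := by
    rw [hq]
    exact_mod_cast h6
  have h7 : (h.factorial : ℝ) * (q * ((m : ℝ) ^ m * (N : ℝ) ^ (h - m))) /
      ((h * N : ℕ) : ℝ) ^ h ≤ ℓ := by
    refine le_trans ?_ h5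
    refine div_le_div_of_nonneg_right ?_ (by positivity)
    exact mul_le_mul_of_nonneg_left h6' hf.le
  have e1 : (N : ℝ) ^ h = (N : ℝ) ^ (h - m) * (N : ℝ) ^ m := by
    rw [← pow_add]
    congr 1
    omega
  have h8 : (h.factorial : ℝ) * (q * ((m : ℝ) ^ m * (N : ℝ) ^ (h - m))) /
      ((h * N : ℕ) : ℝ) ^ h = K * ((m.factorial : ℝ) * q / (N : ℝ) ^ m) := by
    rw [hK]
    push_cast
    rw [mul_pow, e1]
    field_simp
  rw [h8] at h7
  rw [div_lt_iff₀ hK0] at hF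
  linarith

theorem pow_lemma' {m h : ℕ} (hm : 2 ≤ m) (hmh : m < h) : m ^ (m - 1) < h ^ (h - 1) :=
  (Nat.lt_succ_self _).trans (pow_lemma hm hmh)

theorem module_strict {V : Type} [Fintype V] (H : SimpleGraph V) (M : Finset V)
    (hM : IsModule H M) (h2 : 2 ≤ M.card) (h3 : M.card < Fintype.card V) {ℓ : ℝ}
    (hℓ : Inducibility H ℓ) :
    ((Fintype.card V).factorial : ℝ) / (Fintype.card V : ℝ) ^ Fintype.card V *
      ((M.card : ℝ) ^ M.card / ((M.card : ℝ) ^ M.card - M.card)) ≤ ℓ ∧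
    c (Fintype.card V) < ℓ := by
  have hcM : Fintype.card ((M : Set V) : Type) = M.card := by simp
  obtain ⟨ℓ', hℓ'⟩ := exists_lim (H.induce (M : Set V))
  have h4 := module_ineq H M hM (Finset.card_pos.1 (by omega)) hℓ hℓ'
  have h5 := pg (H.induce (M : Set V)) (by rw [hcM]; exact h2) hℓ'
  rw [hcM] at h5
  set h := Fintype.card V with hh
  set m := M.card with hm
  have hmr : (0 : ℝ) < (m : ℝ) := by exact_mod_cast (by omega : 0 < m)
  have hh0 : (0 : ℝ) < (h : ℝ) := by exact_mod_cast (by omega : 0 < h)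
  have hf : (0 : ℝ) < (h.factorial : ℝ) := by exact_mod_cast Nat.factorial_pos h
  have hfm : (0 : ℝ) < (m.factorial : ℝ) := by exact_mod_cast Nat.factorial_pos m
  have hmm : (0 : ℝ) < (m : ℝ) ^ m - m := by
    have : (m : ℝ) < (m : ℝ) ^ m := by exact_mod_cast le_pow_self' h2
    linarith
  have hhh : (0 : ℝ) < (h : ℝ) ^ h - h := by
    have : (h : ℝ) < (h : ℝ) ^ h := by exact_mod_cast le_pow_self' (by omega : 2 ≤ h)
    linarith
  have key : (h.factorial : ℝ) / (h : ℝ) ^ h * ((m : ℝ) ^ m / ((m : ℝ) ^ m - m)) ≤ ℓ := by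
    refine le_trans ?_ h4
    calc (h.factorial : ℝ) / (h : ℝ) ^ h * ((m : ℝ) ^ m / ((m : ℝ) ^ m - m))
        = (h.factorial : ℝ) * (m : ℝ) ^ m / ((h : ℝ) ^ h * (m.factorial : ℝ)) * c m := by
          rw [c]
          field_simp
      _ ≤ _ := mul_le_mul_of_nonneg_left h5 (by positivity)
  refine ⟨key, lt_of_lt_of_le ?_ key⟩
  have h6 : (m : ℝ) ^ (m - 1) < (h : ℝ) ^ (h - 1) := by
    exact_mod_cast pow_lemma' h2 h3
  have e1 : (m : ℝ) ^ m = (m : ℝ) ^ (m - 1) * m := by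
    rw [← pow_succ]
    congr 1
    omega
  have e2 : (h : ℝ) ^ h = (h : ℝ) ^ (h - 1) * h := by
    rw [← pow_succ]
    congr 1
    omega
  rw [c, div_mul_div_comm, div_lt_div_iff₀ hhh (by positivity)]
  have h7 : (h.factorial : ℝ) * (m : ℝ) ^ m * ((h : ℝ) ^ h - h) -
      (h.factorial : ℝ) * ((h : ℝ) ^ h * ((m : ℝ) ^ m - m)) =
      (h.factorial : ℝ) * h * m * ((h : ℝ) ^ (h - 1) - (m : ℝ) ^ (m - 1)) := by
    rw [e1, e2]
    ring
  have h8 : 0 < (h.factorial : ℝ) * h * m * ((h : ℝ) ^ (h - 1) - (m : ℝ) ^ (m - 1)) := by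
    have : 0 < (h : ℝ) ^ (h - 1) - (m : ℝ) ^ (m - 1) := by linarith
    positivity
  linarith

end Pool.Agent.TH723.Ind
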