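import Pool.Agent.TH723.Ind.Crit

set_option autoImplicit false

open Filter Topology Asymptotics

namespace Pool.Agent.TH723.Ind

/-- good graphs for the inducibility -/
theorem approx {V : Type} [Fintype V] (H : SimpleGraph V) {ℓ : ℝ} (hℓ : Inducibility H ℓ)
    {x : ℝ} (hx : x < ℓ) : ∃ (N : ℕ) (F : SimpleGraph (Fin N)), 0 < N ∧
      x < ((Fintype.card V).factorial : ℝ) * (cnt H F : ℝ) / (N : ℝ) ^ Fintype.card V := by
  set h := Fintype.card V with hh
  have hf : (0 : ℝ) < (h.factorial : ℝ) := by exact_mod_cast Nat.factorial_pos h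
  have hev : ∀ᶠ n : ℕ in atTop, x < (iMax H n : ℝ) / (n.choose h : ℝ) *
      ((n.choose h : ℝ) / ((n : ℝ) ^ h / (h.factorial : ℝ))) := by
    have e1 : Tendsto (fun n : ℕ => (n.choose h : ℝ) / ((n : ℝ) ^ h / (h.factorial : ℝ))) atTop
        (𝓝 1) := by
      refine (isEquivalent_iff_tendsto_one ?_).1 (isEquivalent_choose h)
      filter_upwards [eventually_ge_atTop 1] with n hn
      have : (0 : ℝ) < (n : ℝ) := by exact_mod_cast hn
      positivity
    have e2 := (hℓ.mul e1)
    rw [mul_one] at e2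
    exact e2.eventually (lt_mem_nhds hx)
  obtain ⟨n, hn, hn1⟩ := (hev.and (eventually_ge_atTop (h + 1))).exists
  obtain ⟨G, hG⟩ : ∃ G : SimpleGraph (Fin n), cnt H G = iMax H n :=
    exists_eq_ciSup_of_finite
  refine ⟨n, G, by omega, ?_⟩
  rw [hG]
  have hn0 : (0 : ℝ) < (n : ℝ) := by exact_mod_cast (by omega : 0 < n)
  have hch : (0 : ℝ) < (n.choose h : ℝ) := by exact_mod_cast Nat.choose_pos (by omega)
  have e3 : (iMax H n : ℝ) / (n.choose h : ℝ) *
      ((n.choose h : ℝ) / ((n : ℝ) ^ h / (h.factorial : ℝ))) =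
      (h.factorial : ℝ) * (iMax H n : ℝ) / (n : ℝ) ^ h := by
    field_simp
  rwa [e3] at hn

/-- Substitute `F'` (blown up `|M|` times) for the module `M`, and independent sets of size `|W'|`
for the other vertices. -/
def sub {V W' : Type} (H : SimpleGraph V) (M : Finset V) (F' : SimpleGraph W') :
    SimpleGraph (V × W') where
  Adj x y := (x.1 ∈ M ∧ y.1 ∈ M ∧ F'.Adj x.2 y.2) ∨ (¬ (x.1 ∈ M ∧ y.1 ∈ M) ∧ H.Adj x.1 y.1)
  symm := by
    constructor
    rintro x y (⟨h1, h2, h3⟩ | ⟨h1, h2⟩)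
    · exact Or.inl ⟨h2, h1, h3.symm⟩
    · exact Or.inr ⟨fun h => h1 ⟨h.2, h.1⟩, h2.symm⟩
  loopless := by
    constructor
    rintro x (⟨-, -, h⟩ | ⟨-, h⟩)
    · exact F'.irrefl h
    · exact H.irrefl h

theorem sub_cnt {V W' : Type} [Fintype V] [Fintype W'] (H : SimpleGraph V) (M : Finset V)
    (hM : IsModule H M) (F' : SimpleGraph W') :
    cnt (H.induce (M : Set V)) F' * (M.card ^ M.card *
      Fintype.card W' ^ (Fintype.card V - M.card)) ≤ cnt H (sub H M F') := by
  classical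
  have hc : cnt (H.induce (M : Set V)) F' * (M.card ^ M.card *
      Fintype.card W' ^ (Fintype.card V - M.card)) =
      Nat.card ({S : Finset W' // Nonempty (H.induce (M : Set V) ≃g F'.induce (S : Set W'))} ×
        ((M → M) × ({v : V // v ∉ M} → W'))) := by
    rw [Nat.card_prod, Nat.card_prod]
    unfold cnt
    congr 1
    simp [Fintype.card_subtype_compl]
  rw [hc]
  have hψ : ∀ S : {S : Finset W' // Nonempty (H.induce (M : Set V) ≃g F'.induce (S : Set W'))},
      ∃ φ : H.induce (M : Set V) ↪g F', Set.range φ = (S.1 : Set W') :=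
    fun S => (copy_iff _ F' _).1 S.2
  choose ψ hψ using hψ
  let φ : {S : Finset W' // Nonempty (H.induce (M : Set V) ≃g F'.induce (S : Set W'))} →
      (M → M) → ({v : V // v ∉ M} → W') → V → V × W' := fun S b g v =>
    if hv : v ∈ M then ((b ⟨v, hv⟩).1, ψ S ⟨v, hv⟩) else (v, g ⟨v, hv⟩)
  have φ1 : ∀ S b g v (hv : v ∈ M), φ S b g v = ((b ⟨v, hv⟩).1, ψ S ⟨v, hv⟩) :=
    fun S b g v hv => dif_pos hv
  have φ2 : ∀ S b g v (hv : v ∉ M), φ S b g v = (v, g ⟨v, hv⟩) := fun S b g v hv => dif_neg hv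
  have k2 : ∀ S b g, Nonempty (H ≃g (sub H M F').induce
      ((Finset.univ.image (φ S b g) : Finset (V × W')) : Set (V × W'))) := by
    intro S b g
    refine (copy_iff H _ _).2 ⟨⟨⟨φ S b g, ?_⟩, ?_⟩, ?_⟩
    · intro u v huv
      by_cases hu : u ∈ M <;> by_cases hv : v ∈ M
      · rw [φ1 _ _ _ _ hu, φ1 _ _ _ _ hv] at huv
        have := (ψ S).injective (Prod.ext_iff.1 huv).2
        exact congrArg Subtype.val this
      · rw [φ1 _ _ _ _ hu, φ2 _ _ _ _ hv] at huv
        have := (Prod.ext_iff.1 huv).1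
        simp only at this
        exact absurd (this ▸ (b ⟨u, hu⟩).2) hv
      · rw [φ2 _ _ _ _ hu, φ1 _ _ _ _ hv] at huv
        have := (Prod.ext_iff.1 huv).1
        simp only at this
        exact absurd (this ▸ (b ⟨v, hv⟩).2) hu
      · rw [φ2 _ _ _ _ hu, φ2 _ _ _ _ hv] at huv
        exact (Prod.ext_iff.1 huv).1
    · intro u v
      show (((φ S b g u).1 ∈ M ∧ (φ S b g v).1 ∈ M ∧ F'.Adj (φ S b g u).2 (φ S b g v).2) ∨
        (¬ ((φ S b g u).1 ∈ M ∧ (φ S b g v).1 ∈ M) ∧
          H.Adj (φ S b g u).1 (φ S b g v).1)) ↔ H.Adj u v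
      by_cases hu : u ∈ M <;> by_cases hv : v ∈ M
      · rw [φ1 _ _ _ _ hu, φ1 _ _ _ _ hv]
        have h1 := (ψ S).map_adj_iff (v := ⟨u, hu⟩) (w := ⟨v, hv⟩)
        have h2 : (H.induce (M : Set V)).Adj ⟨u, hu⟩ ⟨v, hv⟩ ↔ H.Adj u v := Iff.rfl
        simp only [(b ⟨u, hu⟩).2, (b ⟨v, hv⟩).2, true_and, not_true, false_and, or_false,
          and_self]
        exact h1.trans h2
      · rw [φ1 _ _ _ _ hu, φ2 _ _ _ _ hv]
        simp only [(b ⟨u, hu⟩).2, hv, false_and, and_false, false_or, not_false_iff, true_and]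
        rcases hM v hv with h | h
        · exact iff_of_true (h _ (b ⟨u, hu⟩).2).symm (h u hu).symm
        · exact iff_of_false (fun h' => h _ (b ⟨u, hu⟩).2 h'.symm) (fun h' => h u hu h'.symm)
      · rw [φ2 _ _ _ _ hu, φ1 _ _ _ _ hv]
        simp only [hu, false_and, false_or, not_false_iff, true_and]
        rcases hM u hu with h | h
        · exact iff_of_true (h _ (b ⟨v, hv⟩).2) (h v hv)
        · exact iff_of_false (h _ (b ⟨v, hv⟩).2) (h v hv)
      · rw [φ2 _ _ _ _ hu, φ2 _ _ _ _ hv]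
        simp [hu]
    · simp only [Finset.coe_image, Finset.coe_univ, Set.image_univ]
      rfl
  unfold cnt
  refine Nat.card_le_card_of_injective (fun p => ⟨_, k2 p.1 p.2.1 p.2.2⟩) ?_
  rintro ⟨S, b, g⟩ ⟨S', b', g'⟩ h
  have h3 : Finset.univ.image (φ S b g) = Finset.univ.image (φ S' b' g') := congrArg Subtype.val h
  have fw : ∀ S b g S' b' g', Finset.univ.image (φ S b g) = Finset.univ.image (φ S' b' g') →
      ∀ w, w ∈ S.1 → w ∈ S'.1 := by
    intro S b g S' b' g' h3 w hw
    have hw' : w ∈ Set.range (ψ S) := by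
      rw [hψ S]
      exact hw
    obtain ⟨⟨u, hu⟩, rfl⟩ := hw'
    have h4 : φ S b g u ∈ Finset.univ.image (φ S' b' g') := by
      rw [← h3]
      exact Finset.mem_image_of_mem _ (Finset.mem_univ _)
    obtain ⟨v, -, hv⟩ := Finset.mem_image.1 h4
    rw [φ1 _ _ _ _ hu] at hv
    by_cases hvM : v ∈ M
    · rw [φ1 _ _ _ _ hvM] at hv
      have h5 := (Prod.ext_iff.1 hv).2
      simp only at h5
      rw [← h5]
      have h6 : ψ S' ⟨v, hvM⟩ ∈ Set.range (ψ S') := ⟨_, rfl⟩
      rw [hψ S'] at h6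
      exact h6
    · rw [φ2 _ _ _ _ hvM] at hv
      have h5 := (Prod.ext_iff.1 hv).1
      simp only at h5
      exact absurd (h5 ▸ (b ⟨u, hu⟩).2) hvM
  have hS : S = S' := Subtype.ext (Finset.ext fun w =>
    ⟨fw S b g S' b' g' h3 w, fw S' b' g' S b g h3.symm w⟩)
  subst hS
  have hb : b = b' := by
    funext u
    have h4 : φ S b g u ∈ Finset.univ.image (φ S b' g') := by
      rw [← h3]
      exact Finset.mem_image_of_mem _ (Finset.mem_univ _)
    obtain ⟨v, -, hv⟩ := Finset.mem_image.1 h4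
    rw [φ1 _ _ _ _ u.2] at hv
    by_cases hvM : v ∈ M
    · rw [φ1 _ _ _ _ hvM] at hv
      obtain ⟨h5, h6⟩ := Prod.ext_iff.1 hv
      simp only at h5 h6
      have h7 := (ψ S).injective h6
      have h8 : (⟨v, hvM⟩ : M) = u := Subtype.ext (congrArg Subtype.val h7)
      rw [← h8]
      exact Subtype.ext (by
        rw [h5]
        congr 2)
    · rw [φ2 _ _ _ _ hvM] at hv
      have h5 := (Prod.ext_iff.1 hv).1
      simp only at h5
      exact absurd (h5 ▸ (b ⟨u, u.2⟩).2) hvM
  subst hb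
  have hg : g = g' := by
    funext v
    have h4 : φ S b g v ∈ Finset.univ.image (φ S b g') := by
      rw [← h3]
      exact Finset.mem_image_of_mem _ (Finset.mem_univ _)
    obtain ⟨w, -, hw⟩ := Finset.mem_image.1 h4
    rw [φ2 _ _ _ _ v.2] at hw
    by_cases hwM : w ∈ M
    · rw [φ1 _ _ _ _ hwM] at hw
      have h5 := (Prod.ext_iff.1 hw).1
      simp only at h5
      exact absurd (h5 ▸ (b ⟨w, hwM⟩).2) v.2
    · rw [φ2 _ _ _ _ hwM] at hw
      obtain ⟨h5, h6⟩ := Prod.ext_iff.1 hw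
      simp only at h5 h6
      subst h5
      exact h6.symm
  rw [hg]

/-- the lexicographic product -/
def lex {V W' : Type} (H : SimpleGraph V) (F' : SimpleGraph W') : SimpleGraph (V × W') where
  Adj x y := (x.1 = y.1 ∧ F'.Adj x.2 y.2) ∨ H.Adj x.1 y.1
  symm := by
    constructor
    rintro x y (⟨h1, h2⟩ | h1)
    · exact Or.inl ⟨h1.symm, h2.symm⟩
    · exact Or.inr h1.symm
  loopless := by
    constructor
    rintro x (⟨-, h⟩ | h)
    · exact F'.irrefl h
    · exact H.irrefl h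

theorem lex_cnt {V W' : Type} [Fintype V] [Fintype W'] (H : SimpleGraph V) (F' : SimpleGraph W')
    (h2 : 2 ≤ Fintype.card V) :
    Fintype.card W' ^ Fintype.card V + Fintype.card V * cnt H F' ≤ cnt H (lex H F') := by
  classical
  have hc : Fintype.card W' ^ Fintype.card V + Fintype.card V * cnt H F' =
      Nat.card ((V → W') ⊕ (V × {S : Finset W' // Nonempty (H ≃g F'.induce (S : Set W'))})) := by
    rw [Nat.card_sum, Nat.card_prod]
    unfold cnt
    congr 1
    · simp
    · congr 1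
      simp
  rw [hc]
  have hψ : ∀ S : {S : Finset W' // Nonempty (H ≃g F'.induce (S : Set W'))},
      ∃ φ : H ↪g F', Set.range φ = (S.1 : Set W') := fun S => (copy_iff _ F' _).1 S.2
  choose ψ hψ using hψ
  have k1 : ∀ f : V → W', Nonempty (H ≃g (lex H F').induce
      ((Finset.univ.image fun v => (v, f v) : Finset (V × W')) : Set (V × W'))) := by
    intro f
    refine (copy_iff H _ _).2 ⟨⟨⟨fun v => (v, f v), ?_⟩, ?_⟩, ?_⟩
    · intro a b hab
      exact (Prod.ext_iff.1 hab).1
    · intro a b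
      show ((a = b ∧ F'.Adj (f a) (f b)) ∨ H.Adj a b) ↔ H.Adj a b
      constructor
      · rintro (⟨h, h'⟩ | h)
        · subst h
          exact absurd h' (F'.irrefl)
        · exact h
      · exact Or.inr
    · simp only [Finset.coe_image, Finset.coe_univ, Set.image_univ]
      rfl
  have k2 : ∀ (v0 : V) (S : {S : Finset W' // Nonempty (H ≃g F'.induce (S : Set W'))}),
      Nonempty (H ≃g (lex H F').induce
      ((Finset.univ.image fun v => (v0, ψ S v) : Finset (V × W')) : Set (V × W'))) := by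
    intro v0 S
    refine (copy_iff H _ _).2 ⟨⟨⟨fun v => (v0, ψ S v), ?_⟩, ?_⟩, ?_⟩
    · intro a b hab
      exact (ψ S).injective (Prod.ext_iff.1 hab).2
    · intro a b
      show ((v0 = v0 ∧ F'.Adj (ψ S a) (ψ S b)) ∨ H.Adj v0 v0) ↔ H.Adj a b
      have h1 : F'.Adj (ψ S a) (ψ S b) ↔ H.Adj a b := (ψ S).map_adj_iff
      simp [h1]
    · simp only [Finset.coe_image, Finset.coe_univ, Set.image_univ]
      rfl
  unfold cnt
  refine Nat.card_le_card_of_injective
    (Sum.elim (fun f => ⟨_, k1 f⟩) (fun p => ⟨_, k2 p.1 p.2⟩)) ?_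
  obtain ⟨u1, u2, hu⟩ : ∃ u1 u2 : V, u1 ≠ u2 :=
    Fintype.exists_pair_of_one_lt_card (by omega)
  have d12 : ∀ (f : V → W') (v0 : V)
      (S : {S : Finset W' // Nonempty (H ≃g F'.induce (S : Set W'))}),
      (Finset.univ.image fun v => (v, f v)) ≠ (Finset.univ.image fun v => (v0, ψ S v)) := by
    intro f v0 S h
    have hall : ∀ u : V, u = v0 := by
      intro u
      have : (u, f u) ∈ Finset.univ.image fun v => (v0, ψ S v) := by
        rw [← h]
        exact Finset.mem_image_of_mem _ (Finset.mem_univ _)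
      obtain ⟨v, -, hv⟩ := Finset.mem_image.1 this
      exact (Prod.ext_iff.1 hv).1.symm
    exact hu ((hall u1).trans (hall u2).symm)
  rintro (f | ⟨v0, S⟩) (f' | ⟨v1, S'⟩) h
  · have h3 : (Finset.univ.image fun v => (v, f v)) = Finset.univ.image fun v => (v, f' v) :=
      congrArg Subtype.val h
    congr 1
    funext v
    have h4 : (v, f v) ∈ Finset.univ.image fun v => (v, f' v) := by
      rw [← h3]
      exact Finset.mem_image_of_mem _ (Finset.mem_univ v)
    obtain ⟨w, -, hw⟩ := Finset.mem_image.1 h4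
    obtain ⟨h5, h6⟩ := Prod.ext_iff.1 hw
    simp only at h5 h6
    subst h5
    exact h6.symm
  · exact absurd (congrArg Subtype.val h) (d12 f v1 S')
  · exact absurd (congrArg Subtype.val h).symm (d12 f' v0 S)
  · have h3 : (Finset.univ.image fun v => (v0, ψ S v)) = Finset.univ.image fun v => (v1, ψ S' v) :=
      congrArg Subtype.val h
    have hv : v0 = v1 := by
      have h4 : (v0, ψ S u1) ∈ Finset.univ.image fun v => (v1, ψ S' v) := by
        rw [← h3]
        exact Finset.mem_image_of_mem _ (Finset.mem_univ u1)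
      obtain ⟨w, -, hw⟩ := Finset.mem_image.1 h4
      exact (Prod.ext_iff.1 hw).1.symm
    subst hv
    have fw : ∀ S S', (Finset.univ.image fun v => (v0, ψ S v)) =
        (Finset.univ.image fun v => (v0, ψ S' v)) → ∀ w, w ∈ S.1 → w ∈ S'.1 := by
      intro S S' h3 w hw
      have hw' : w ∈ Set.range (ψ S) := by
        rw [hψ S]
        exact hw
      obtain ⟨u, rfl⟩ := hw'
      have h4 : (v0, ψ S u) ∈ Finset.univ.image fun v => (v0, ψ S' v) := by
        rw [← h3]
        exact Finset.mem_image_of_mem _ (Finset.mem_univ _)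
      obtain ⟨v, -, hv⟩ := Finset.mem_image.1 h4
      have h5 := (Prod.ext_iff.1 hv).2
      simp only at h5
      rw [← h5]
      have h6 : ψ S' v ∈ Set.range (ψ S') := ⟨_, rfl⟩
      rw [hψ S'] at h6
      exact h6
    have hS : S = S' := Subtype.ext (Finset.ext fun w =>
      ⟨fw S S' h3 w, fw S' S h3.symm w⟩)
    rw [hS]

end Pool.Agent.TH723.Ind
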